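import Mathlib
import Pool.Agent.H819.NC.Pub

/-!
# Numerically good fibres: definitions
-/

set_option autoImplicit false

open Set Filter Topology MeasureTheory Metric
open scoped Manifold ContDiff ENNReal NNReal

noncomputable section

namespace Pool.Agent.H819.RNP

open Pool.Agent.Y501.SYP Pool.Agent.H819.LGP Pool.Agent.H819.LNP Pool.Agent.H819.HNP
open Pool.Agent.H819.EMP Pool.Agent.H819.NCP

variable {V : Type} [NormedAddCommGroup V] [NormedSpace ℝ V]
  {X : Type} [TopologicalSpace X] [ChartedSpace V X]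

/-- The values `θ i (u, J u)` are bounded below by `- B |u|²`, locally uniformly in the charts, for all
`i` and all the vectors `u` at the points of `F` with `σ(u, J u) = 0`. -/
def BoundedBelow (σ : Form V X 2) (J : End V X) (F : Set X) (θ : ℕ → Form V X 2) : Prop :=
  ∀ (x₀ : X) (N : Set V), InChart x₀ N → ∃ B : ℝ, ∀ i, ∀ z ∈ N, (chartAt V x₀).symm z ∈ F →
    ∀ u : V, ev2 (loc x₀ σ z) u (op J x₀ z u) = 0 →
      -(B * ‖u‖ ^ 2) ≤ ev2 (loc x₀ (θ i) z) u (op J x₀ z u)

/-- The lower limit of `θ i (v, J v)` is positive for each nonzero vector `v` at `x` with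
`σ(v, J v) = 0`. -/
def PositiveLimit (σ : Form V X 2) (J : End V X) (θ : ℕ → Form V X 2) (x : X) : Prop :=
  ∀ v : TangentSpace 𝓘(ℝ, V) x, v ≠ 0 → qd σ J x v = 0 →
    ∃ c : ℝ, 0 < c ∧ ∀ᶠ i in atTop, c ≤ qd (θ i) J x v

/-- The set `F` is numerically good: there are a chain `C 0 ⊆ … ⊆ C n` with positive degrees (see
`NumericalChain`) and smooth closed forms `θ i` in the class of `ζ`, which on the null vectors of `σ` over
`F` are bounded below and, except over `C n` and over a set of zero two-dimensional Hausdorff measure,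
have positive lower limits. -/
def NumericallyGood [MeasurableSpace V] [BorelSpace V] (σ ζ : Form V X 2) (J : End V X)
    (F : Set X) : Prop :=
  ∃ (n : ℕ) (C : ℕ → Set X) (θ : ℕ → Form V X 2), NumericalChain ζ J n C ∧
    (∀ i, InClass ζ (θ i)) ∧ BoundedBelow σ J F θ ∧
    HausdorffNull (V := V) 2 {x | x ∈ F ∧ x ∉ C n ∧ ¬ PositiveLimit σ J θ x}

/-- `J` is smooth. -/
def SmoothEnd (J : End V X) : Prop :=
  ∀ p : X, ∀ᶠ z in 𝓝 (chartAt V p p), ContDiffAt ℝ ∞ (op J p) z

/-- Up to a set of zero two-dimensional Hausdorff measure, the set `F` is the image of a closed Riemann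
surface `(S, j)`, not necessarily connected and possibly empty, under a simple `J`-holomorphic map. -/
def IsCurve [MeasurableSpace V] [BorelSpace V] (J : End V X) (F : Set X) : Prop :=
  ∃ (S : Type) (_ : TopologicalSpace S) (_ : ChartedSpace (ES 2) S)
    (_ : IsManifold 𝓘(ℝ, ES 2) ∞ S) (_ : CompactSpace S) (_ : T2Space S)
    (j : End (ES 2) S) (u : S → X) (P : Set X), IsAlmostComplex j ∧
      IsSimple (V := V) (W := ES 2) J j u P ∧ range u ⊆ F ∧
      HausdorffNull (V := V) 2 {x | x ∈ F ∧ x ∉ range u}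

/-- The class of `ζ` is positive on every closed `J`-holomorphic curve contained in a fibre of `f`: for
each simple `J`-holomorphic map `u` of a closed Riemann surface `(S, j)` to a fibre, the class of `u^* ζ`
contains a symplectic form (an area form) taming `j`. -/
def PositiveOnFibres {Y : Type} (f : X → Y) (ζ : Form V X 2) (J : End V X) : Prop :=
  ∀ (S : Type) (_ : TopologicalSpace S) (_ : ChartedSpace (ES 2) S)
    (_ : IsManifold 𝓘(ℝ, ES 2) ∞ S) (_ : CompactSpace S) (_ : T2Space S)
    (j : End (ES 2) S) (u : S → X) (P : Set X) (y : Y), IsAlmostComplex j →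
      IsSimple (V := V) (W := ES 2) J j u P → (∀ s, f (u s) = y) → TamedIn (pull u ζ) j

/-- `f` is a smooth map, and `σ` is a smooth closed two-form with `σ(v, J v) ≥ 0` for all `v`, and
`σ(v, J v) = 0` only if `df(v) = 0`. -/
structure Semipositive {W : Type} [NormedAddCommGroup W] [NormedSpace ℝ W] {Y : Type}
    [TopologicalSpace Y] [ChartedSpace W Y] (f : X → Y) (σ : Form V X 2) (J : End V X) : Prop where
  smooth_map : ContMDiff 𝓘(ℝ, V) 𝓘(ℝ, W) ∞ f
  smooth : IsSmooth σ
  closed : IsClosedForm σ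
  nonneg : ∀ (x : X) (v : TangentSpace 𝓘(ℝ, V) x), 0 ≤ qd σ J x v
  null : ∀ (x : X) (v : TangentSpace 𝓘(ℝ, V) x), qd σ J x v = 0 → der (V := W) (W := V) f x v = 0

/-- `σ(v, w) = 0` if `df(v) = 0`. -/
def VanishesOnKernel {W : Type} [NormedAddCommGroup W] [NormedSpace ℝ W] {Y : Type}
    [TopologicalSpace Y] [ChartedSpace W Y] (f : X → Y) (σ : Form V X 2) : Prop :=
  ∀ (x : X) (v : TangentSpace 𝓘(ℝ, V) x), der (V := W) (W := V) f x v = 0 →
    ∀ w : TangentSpace 𝓘(ℝ, V) x, σ x ![v, w] = 0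

/-- For all small `t > 0` the class of `σ + t ζ` contains a symplectic form taming `J`. -/
def TamedNear (σ ζ : Form V X 2) (J : End V X) : Prop :=
  ∃ t₀ : ℝ, 0 < t₀ ∧ ∀ t : ℝ, 0 < t → t ≤ t₀ → TamedIn (comb σ t ζ) J

end Pool.Agent.H819.RNP
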