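import Mathlib
import Pool.Agent.H819.EM.Dual
import Pool.Agent.H819.NC.NearP
import Pool.Agent.H819.NC.Pull

/-!
# Semipositive forms which are positive off a finite set
-/

set_option autoImplicit false

open Set Filter Topology MeasureTheory Metric
open scoped Manifold ContDiff ENNReal NNReal

noncomputable section

namespace Pool.Agent.H819.RN

open Pool.Agent.Y501.SY
open Pool.Agent.H819
open Pool.Agent.H819.EM
open Pool.Agent.H819.LG (LocHolder TamedIn extF InClass)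

/-- a small multiple of a function which is positive on the zero set of a nonnegative function -/
theorem pos_small {T : Type} [TopologicalSpace T] {K : Set T} (hK : IsCompact K) {a b : T → ℝ}
    (ha : ContinuousOn a K) (hb : ContinuousOn b K) (h0 : ∀ q ∈ K, 0 ≤ a q)
    (h1 : ∀ q ∈ K, a q = 0 → 0 < b q) :
    ∃ ε₀ : ℝ, 0 < ε₀ ∧ ∀ ε, 0 < ε → ε ≤ ε₀ → ∀ q ∈ K, 0 < a q + ε * b q := by
  have key : ∃ ε₀ : ℝ, 0 < ε₀ ∧ ∀ ε, 0 < ε → ε ≤ ε₀ → ∀ q ∈ K ∩ K, 0 < a q + ε * b q := by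
    refine hK.induction_on (p := fun s => ∃ ε₀ : ℝ, 0 < ε₀ ∧
      ∀ ε, 0 < ε → ε ≤ ε₀ → ∀ q ∈ s ∩ K, 0 < a q + ε * b q) ?_ ?_ ?_ ?_
    · exact ⟨1, one_pos, fun ε _ _ q hq => absurd hq.1 (notMem_empty q)⟩
    · rintro s t hst ⟨ε₀, h2, h3⟩
      exact ⟨ε₀, h2, fun ε h4 h5 q hq => h3 ε h4 h5 q ⟨hst hq.1, hq.2⟩⟩
    · rintro s t ⟨ε₁, h2, h3⟩ ⟨ε₂, h4, h5⟩
      refine ⟨min ε₁ ε₂, lt_min h2 h4, fun ε h6 h7 q hq => ?_⟩
      rcases hq.1 with h8 | h8
      · exact h3 ε h6 (h7.trans (min_le_left _ _)) q ⟨h8, hq.2⟩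
      · exact h5 ε h6 (h7.trans (min_le_right _ _)) q ⟨h8, hq.2⟩
    · intro q hq
      rcases (h0 q hq).eq_or_lt with h2 | h2
      · have h3 := h1 q hq h2.symm
        have h4 : {x | 0 < b x} ∈ 𝓝[K] q := (hb q hq).eventually (lt_mem_nhds h3)
        refine ⟨_, h4, 1, one_pos, fun ε h5 _ x hx => ?_⟩
        have h6 := mul_pos h5 hx.1
        have h7 := h0 x hx.2
        linarith
      · have h4 : {x | a q / 2 < a x} ∈ 𝓝[K] q :=
          (ha q hq).eventually (lt_mem_nhds (by linarith))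
        have h5 : {x | |b x| < |b q| + 1} ∈ 𝓝[K] q :=
          ((hb q hq).abs).eventually (gt_mem_nhds (by linarith))
        have hB : 0 < |b q| + 1 := by positivity
        refine ⟨_, inter_mem h4 h5, a q / (2 * (|b q| + 1)), by positivity,
          fun ε h6 h7 x hx => ?_⟩
        have h8 : a q / 2 < a x := hx.1.1
        have h9 : |b x| < |b q| + 1 := hx.1.2
        have h10 : ε * |b x| ≤ a q / 2 := by
          calc ε * |b x| ≤ a q / (2 * (|b q| + 1)) * (|b q| + 1) := by gcongr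
            _ = a q / 2 := by field_simp
        have h11 : -(ε * |b x|) ≤ ε * b x := by
          rw [← mul_neg]
          exact mul_le_mul_of_nonneg_left (neg_abs_le _) h6.le
        linarith
  obtain ⟨ε₀, h2, h3⟩ := key
  exact ⟨ε₀, h2, fun ε h4 h5 q hq => h3 ε h4 h5 q ⟨hq, hq⟩⟩

variable {d : ℕ} {X : Type} [TopologicalSpace X] [ChartedSpace (E d) X] [IsManifold (𝓡 d) ∞ X]

/-- the values at unit vectors of the charts -/
theorem exists_vl (σ : Form d X 2) (J : End d X) (x : X) {z : E d}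
    (hz : z ∈ (chartAt (E d) x).target) (u : E d) :
    vl J σ x (z, u) = σ ((chartAt (E d) x).symm z)
      ![Pool.Agent.Y455.SY.A x z u, J ((chartAt (E d) x).symm z) (Pool.Agent.Y455.SY.A x z u)] :=
  Pool.Agent.Y455.SY.Q_eq σ J x hz u

/-- taming in the charts -/
theorem tames_of_vl {σ : Form d X 2} {J : End d X} {κ : Type} (x : κ → X) (K : κ → Set (E d))
    (hKt : ∀ k, K k ⊆ (chartAt (E d) (x k)).target)
    (hcov : ∀ p : X, ∃ k, ∃ z ∈ K k, (chartAt (E d) (x k)).symm z = p)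
    (h : ∀ k, ∀ q ∈ K k ×ˢ sphere (0 : E d) 1, 0 < vl J σ (x k) q) (p : X) : TamesAt σ J p := by
  obtain ⟨i, y, hy, rfl⟩ := hcov p
  rw [Pool.Agent.Y455.SY.tames_iff σ J (x i) (hKt i hy)]
  rw [Pool.Agent.Y455.SY.pos_iff _ fun s v => Pool.Agent.Y455.SY.Q_smul σ J (x i) y v s]
  exact fun v hv => h i (y, v) ⟨hy, hv⟩

theorem tamed_of_semi [T2Space X] [CompactSpace X] {J : End d X}
    (hJ2 : ∀ (x : X) (v : TangentSpace (𝓡 d) x), J x (J x v) = -v)
    (hJ : ∀ x₀, ContinuousOn (inChart J x₀) (chartAt (E d) x₀).target) {w : Form d X 2}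
    (hw : IsSmooth w) (hc : IsClosedForm w) {Z : Set X} (hZ : Z.Finite)
    (h0 : ∀ (x : X) (v : TangentSpace (𝓡 d) x), 0 ≤ w x ![v, J x v])
    (h1 : ∀ x, x ∉ Z → ∀ v : TangentSpace (𝓡 d) x, v ≠ 0 → 0 < w x ![v, J x v]) :
    TamedIn w J := by
  obtain ⟨γ, ξ, g1, g2, g3, O, hO, hZO, hpos⟩ := NC.pos_near hJ2 hJ hZ
  obtain ⟨n, x, K, N, c1, -, c3, c4, c5⟩ := LG.exists_cover d X
  have hKt : ∀ i, K i ⊆ (chartAt (E d) (x i)).target := fun i =>
    (c3 i).trans (interior_subset.trans (c4 i))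
  have hcomp : ∀ i, IsCompact (K i ×ˢ sphere (0 : E d) 1) := fun i =>
    (c1 i).prod (isCompact_sphere 0 1)
  have h2 : ∀ i, ∃ ε₀ : ℝ, 0 < ε₀ ∧ ∀ ε, 0 < ε → ε ≤ ε₀ → ∀ q ∈ K i ×ˢ sphere (0 : E d) 1,
      0 < vl J w (x i) q + ε * vl J ξ (x i) q := by
    intro i
    refine pos_small (hcomp i) (continuousOn_vl hJ hw (x i) (hKt i))
      (continuousOn_vl hJ g2 (x i) (hKt i)) ?_ ?_
    · rintro ⟨z, u⟩ hq
      rw [exists_vl w J (x i) (hKt i hq.1)]
      exact h0 _ _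
    · rintro ⟨z, u⟩ hq h3
      have hu : Pool.Agent.Y455.SY.A (x i) z u ≠ 0 := by
        intro h4
        have h5 := Pool.Agent.Y455.SY.BA (x i) (hKt i hq.1) u
        rw [h4, map_zero] at h5
        have h6 := hq.2
        rw [← h5, mem_sphere_zero_iff_norm, norm_zero] at h6
        exact zero_ne_one h6
      rw [exists_vl w J (x i) (hKt i hq.1)] at h3
      rw [exists_vl ξ J (x i) (hKt i hq.1)]
      refine hpos _ (hZO ?_) _ hu
      by_contra h7
      exact (h1 _ h7 _ hu).ne' h3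
  choose ε₀ e1 e2 using h2
  obtain ⟨ε, hε, hε2⟩ : ∃ ε : ℝ, 0 < ε ∧ ∀ i, ε ≤ ε₀ i := by
    rcases isEmpty_or_nonempty (Fin n) with h | h
    · exact ⟨1, one_pos, fun i => (h.false i).elim⟩
    · obtain ⟨i, hi⟩ := Finite.exists_min ε₀
      exact ⟨ε₀ i, e1 i, hi⟩
  refine LG.tamedIn_of ⟨w + ε • ξ, ⟨hw.add (g2.smul ε), ?_, ε • γ, g1.smul ε, ?_⟩, ?_⟩
  · have h5 := IsD.add hc (closed_of_isD (g1.smul ε) (g3.smul ε)) hw (g2.smul ε)
    rwa [add_zero] at h5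
  · rw [add_sub_cancel_left]
    exact g3.smul ε
  · refine tames_of_vl x K hKt c5 fun i q hq => ?_
    rw [vl_add, vl_smul]
    exact e2 i ε hε (hε2 i) q hq

end Pool.Agent.H819.RN
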