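import Mathlib
import Pool.Agent.H819.RN.Semi

/-!
# Taming forms are positive on closed curves
-/

set_option autoImplicit false

open Set Filter Topology MeasureTheory Metric
open scoped Manifold ContDiff ENNReal NNReal

noncomputable section

namespace Pool.Agent.H819.RN

open Pool.Agent.Y501.SY
open Pool.Agent.H819
open Pool.Agent.H819.NC (pullF Curve smooth_pullF isD_pullF)
open Pool.Agent.H819.LG (LocHolder TamedIn extF InClass)

variable {d : ℕ} {X : Type} [TopologicalSpace X] [ChartedSpace (E d) X] [IsManifold (𝓡 d) ∞ X]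
  {S : Type} [TopologicalSpace S] [ChartedSpace (E 2) S] [IsManifold (𝓡 2) ∞ S]

omit [IsManifold (𝓡 d) ∞ X] [IsManifold (𝓡 2) ∞ S] in
theorem pull_val {J : End d X} {j : End 2 S} {u : S → X} {P : Set X} (hu : Curve J j u P)
    (w : Form d X 2) (x : S) (v : TangentSpace (𝓡 2) x) :
    pullF u w x ![v, j x v] = w (u x) ![mfderiv (𝓡 2) (𝓡 d) u x v,
      J (u x) (mfderiv (𝓡 2) (𝓡 d) u x v)] := by
  have h1 : pullF u w x ![v, j x v] = w (u x) (fun i => mfderiv (𝓡 2) (𝓡 d) u x
    ((![v, j x v] : Fin 2 → TangentSpace (𝓡 2) x) i)) := rfl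
  rw [h1, ← hu.hol x v]
  congr 1
  funext i
  fin_cases i <;> rfl

/-- The class of a taming form is positive on every closed curve. -/
theorem curve_semi [T2Space S] [CompactSpace S] {J : End d X} {j : End 2 S} {u : S → X}
    {P : Set X} (hu : Curve J j u P)
    (hj2 : ∀ (x : S) (v : TangentSpace (𝓡 2) x), j x (j x v) = -v)
    (hj : ∀ x₀, ContinuousOn (inChart j x₀) (chartAt (E 2) x₀).target) {w : Form d X 2}
    (hw : IsSmooth w) (hc : IsClosedForm w) (ht : ∀ x, TamesAt w J x) :
    TamedIn (pullF u w) j := by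
  have hcl : IsClosedForm (pullF (m := 2) u w) := by
    have h1 := isD_pullF hu.smooth hw hc
    have h2 : (pullF (m := 2) u (0 : Form d X 3)) = 0 := by
      funext x
      ext v
      rfl
    rw [h2] at h1
    exact h1
  have hpos : ∀ (x : X) (v : TangentSpace (𝓡 d) x), 0 ≤ w x ![v, J x v] := by
    intro x v
    by_cases hv : v = 0
    · refine le_of_eq ?_
      rw [hv]
      exact ((w x).map_coord_zero 0 rfl).symm
    · exact (ht x v hv).le
  refine tamed_of_semi hj2 hj (smooth_pullF hu.smooth hw) hcl hu.finp (fun x v => ?_)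
    fun x hx v hv => ?_
  · rw [pull_val hu]
    exact hpos _ _
  · rw [pull_val hu]
    refine ht _ _ fun h0 => hv ?_
    refine hu.imm x hx ?_
    rw [h0, map_zero]

theorem curve_class [T2Space S] [CompactSpace S] {J : End d X} {j : End 2 S} {u : S → X}
    {P : Set X} (hu : Curve J j u P)
    (hj2 : ∀ (x : S) (v : TangentSpace (𝓡 2) x), j x (j x v) = -v)
    (hj : ∀ x₀, ContinuousOn (inChart j x₀) (chartAt (E 2) x₀).target) {w σ ζ : Form d X 2}
    (hw : IsSmooth w) (hc : IsClosedForm w) (ht : ∀ x, TamesAt w J x) {t : ℝ} (h0 : 0 < t)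
    {β : Form d X 1} (hβ : IsSmooth β) (hd : IsD β (w - (σ + t • ζ)))
    (hσ : pullF (m := 2) u σ = 0) : TamedIn (pullF (m := 2) u ζ) j := by
  obtain ⟨τ, ⟨h1, h2, -⟩, ⟨γ, h3, h4⟩, h5⟩ := curve_semi hu hj2 hj hw hc ht
  have h6 := isD_pullF (m := 2) hu.smooth hβ hd
  refine LG.tamedIn_of ⟨t⁻¹ • τ, ⟨h1.smul _, ?_, t⁻¹ • (γ + pullF u β),
    (h3.add (smooth_pullF hu.smooth hβ)).smul _, ?_⟩, fun x v hv => ?_⟩
  · have h7 := IsD.smul h2 t⁻¹
    rwa [smul_zero] at h7
  · have h7 := (h4.add h6 h3 (smooth_pullF hu.smooth hβ)).smul t⁻¹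
    have h8 : t⁻¹ • τ - pullF (m := 2) u ζ =
        t⁻¹ • (τ - pullF u w + pullF u (w - (σ + t • ζ))) := by
      have h9 : pullF (m := 2) u (w - (σ + t • ζ)) =
          pullF u w - (pullF u σ + t • pullF u ζ) := by
        funext x
        ext v
        rfl
      rw [h9, hσ, zero_add]
      have h10 : τ - pullF (m := 2) u w + (pullF u w - t • pullF u ζ) = τ - t • pullF u ζ := by
        abel
      rw [h10, smul_sub, smul_smul, inv_mul_cancel₀ h0.ne', one_smul]
    rw [h8]
    exact h7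
  · exact mul_pos (inv_pos.2 h0) (h5 x v hv)

end Pool.Agent.H819.RN
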