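import Mathlib

/-!
# Integrals of functions with positive lower limits
-/

set_option autoImplicit false

open Set Filter Topology MeasureTheory
open scoped ENNReal NNReal

noncomputable section

namespace Pool.Agent.H819.RN

/-- The integrals of functions which are bounded below and have positive lower limits.

Proof.  Let `A m = {t | ∀ i ≥ m, 1 / (m + 1) ≤ g i t}`: null measurable
(`nullMeasurableSet_le`, `NullMeasurableSet.iInter`), increasing in `m`, and the union has full measure.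
If `μ ≠ 0`, choose `m₀` with `0 < μ (A m₀)` and put `L = μ.real (A m₀) / (m₀ + 1)`.  For `i ≥ m ≥ m₀`:
`∫ g i ≥ (1 / (m₀ + 1)) μ.real (A m₀) - B μ.real (A m)ᶜ`, because `g i ≥ 1 / (m₀ + 1)` on `A m₀`, `g i ≥ 0` on
`A m \ A m₀` and `g i ≥ -B` almost everywhere; and `μ (A m)ᶜ → 0`.  (If `μ = 0` take `L = 0`.)  We may assume
`0 ≤ B`. -/
theorem lower_int {T : Type} [MeasurableSpace T] {μ : Measure T} [IsFiniteMeasure μ]
    {g : ℕ → T → ℝ} (hg : ∀ i, Integrable (g i) μ) {B : ℝ}
    (hB : ∀ᵐ t ∂μ, ∀ i, -B ≤ g i t) (h : ∀ᵐ t ∂μ, ∃ c : ℝ, 0 < c ∧ ∀ᶠ i in atTop, c ≤ g i t) :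
    ∃ L : ℝ, 0 ≤ L ∧ (μ ≠ 0 → 0 < L) ∧
      ∀ ε : ℝ, 0 < ε → ∀ᶠ i in atTop, L - ε ≤ ∫ t, g i t ∂μ := by
  rcases eq_or_ne μ 0 with rfl | hμ
  · refine ⟨0, le_rfl, fun h => absurd rfl h, fun ε hε => Eventually.of_forall fun i => ?_⟩
    rw [integral_zero_measure]
    linarith
  set b : ℝ := max B 0 with hb
  have hb0 : 0 ≤ b := le_max_right _ _
  have hgb : ∀ᵐ t ∂μ, ∀ i, 0 ≤ g i t + b := by
    filter_upwards [hB] with t ht i
    have h1 := ht i
    have h2 : B ≤ b := le_max_left _ _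
    linarith
  have hm : ∀ i, AEMeasurable (fun t => ENNReal.ofReal (g i t + b)) μ := fun i =>
    ((hg i).aemeasurable.add_const b).ennreal_ofReal
  have hfat := lintegral_liminf_le' (u := atTop) hm
  have hlt : ∀ᵐ t ∂μ, ENNReal.ofReal b < liminf (fun i => ENNReal.ofReal (g i t + b)) atTop := by
    filter_upwards [h] with t ht
    obtain ⟨c, hc, hct⟩ := ht
    have h1 : ENNReal.ofReal b < ENNReal.ofReal (c + b) :=
      (ENNReal.ofReal_lt_ofReal_iff (by linarith)).2 (by linarith)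
    refine h1.trans_le (le_liminf_of_le (by isBoundedDefault) ?_)
    filter_upwards [hct] with i hi
    exact ENNReal.ofReal_le_ofReal (by linarith)
  have hmeas : AEMeasurable (fun t => liminf (fun i => ENNReal.ofReal (g i t + b)) atTop) μ := by
    refine ⟨fun t => liminf (fun i => (hm i).mk _ t) atTop,
      Measurable.liminf fun i => (hm i).measurable_mk, ?_⟩
    filter_upwards [ae_all_iff.2 fun i => (hm i).ae_eq_mk] with t ht
    simp only [ht]
  have hfin : ∫⁻ _ : T, ENNReal.ofReal b ∂μ ≠ ⊤ := by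
    rw [lintegral_const]
    exact ENNReal.mul_ne_top ENNReal.ofReal_ne_top (measure_ne_top μ _)
  have hstr := lintegral_strict_mono hμ hmeas hfin hlt
  rw [lintegral_const] at hstr
  obtain ⟨r, hr1, hr2⟩ := ENNReal.lt_iff_exists_nnreal_btwn.1 (hstr.trans_le hfat)
  have hr1' : b * μ.real univ < r := by
    have h1 : ENNReal.ofReal b * μ univ = ENNReal.ofReal (b * μ.real univ) := by
      rw [ENNReal.ofReal_mul hb0, Measure.real, ENNReal.ofReal_toReal (measure_ne_top μ _)]
    rw [h1, ← ENNReal.ofReal_coe_nnreal] at hr1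
    exact (ENNReal.ofReal_lt_ofReal_iff_of_nonneg
      (mul_nonneg hb0 measureReal_nonneg)).1 hr1
  refine ⟨r - b * μ.real univ, by linarith, fun _ => by linarith, fun ε hε => ?_⟩
  filter_upwards [eventually_lt_of_lt_liminf hr2] with i hi
  have h1 : ENNReal.ofReal (∫ t, (g i t + b) ∂μ) = ∫⁻ t, ENNReal.ofReal (g i t + b) ∂μ :=
    ofReal_integral_eq_lintegral_ofReal ((hg i).add (integrable_const b))
      (hgb.mono fun t ht => ht i)
  rw [← h1, ← ENNReal.ofReal_coe_nnreal] at hi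
  have h2 : (r : ℝ) < ∫ t, (g i t + b) ∂μ :=
    (ENNReal.ofReal_lt_ofReal_iff_of_nonneg r.coe_nonneg).1 hi
  rw [integral_add (hg i) (integrable_const b), integral_const, smul_eq_mul] at h2
  have h3 : μ.real univ * b = b * μ.real univ := mul_comm _ _
  linarith

end Pool.Agent.H819.RN
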