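import Mathlib
import Pool.Agent.H819.EM.NDiff
import Pool.Agent.H819.EM.NullOver
import Pool.Agent.H819.HN.Fin

/-!
# Structure measures do not charge sets of zero two-dimensional measure
-/

set_option autoImplicit false

open Set Filter Topology MeasureTheory Metric
open scoped Manifold ContDiff ENNReal NNReal

noncomputable section

namespace Pool.Agent.H819.RN

open Pool.Agent.Y501.SY
open Pool.Agent.H819
open Pool.Agent.H819.EM
open Pool.Agent.H819.HN (HN)
open Pool.Agent.H819.LG (LocHolder TamedIn extF)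

variable {d : ℕ} {X : Type} [TopologicalSpace X] [ChartedSpace (E d) X] [IsManifold (𝓡 d) ∞ X]

namespace NullAnyAux

/-- the changes of charts are smooth -/
theorem trans_contDiffAt {x x₀ : X} {z : E d} (hz : z ∈ (chartAt (E d) x).target)
    (hz0 : (chartAt (E d) x).symm z ∈ (chartAt (E d) x₀).source) :
    ContDiffAt ℝ ∞ (fun w => chartAt (E d) x₀ ((chartAt (E d) x).symm w)) z := by
  have h1 : ContMDiffAt (𝓡 d) (𝓡 d) ∞ (chartAt (E d) x).symm z :=
    contMDiffOn_chart_symm.contMDiffAt ((chartAt (E d) x).open_target.mem_nhds hz)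
  have h2 : ContMDiffAt (𝓡 d) (𝓡 d) ∞ (chartAt (E d) x₀) ((chartAt (E d) x).symm z) :=
    contMDiffOn_chart.contMDiffAt ((chartAt (E d) x₀).open_source.mem_nhds hz0)
  exact contMDiffAt_iff_contDiffAt.1 (h2.comp z h1)

/-- the image of a null set by a map which is locally Lipschitz at its points is null -/
theorem image_null {f : E d → E d} {S : Set (E d)} {s : ℝ} (hs : 0 ≤ s)
    (hf : ∀ z ∈ S, ∃ K : ℝ≥0, ∃ t ∈ 𝓝 z, LipschitzOnWith K f t) (h0 : μH[s] S = 0) :
    μH[s] (f '' S) = 0 := by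
  choose! K t ht hL using hf
  obtain ⟨c, hcS, hc, hcov⟩ := TopologicalSpace.countable_cover_nhdsWithin
    (fun z hz => mem_nhdsWithin_of_mem_nhds (ht z hz))
  have h1 : f '' S ⊆ ⋃ z ∈ c, f '' (S ∩ t z) := by
    rintro _ ⟨w, hw, rfl⟩
    obtain ⟨z, hz, hwz⟩ := mem_iUnion₂.1 (hcov hw)
    exact mem_iUnion₂.2 ⟨z, hz, w, ⟨hw, hwz⟩, rfl⟩
  refine measure_mono_null h1 ((measure_biUnion_null_iff hc).2 fun z hz => ?_)
  have h2 := ((hL z (hcS hz)).mono (inter_subset_right (s := S))).hausdorffMeasure_image_le hs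
  rw [measure_mono_null inter_subset_left h0, mul_zero] at h2
  exact le_antisymm h2 bot_le

end NullAnyAux

/-- A change of charts preserves the compact sets of zero two-dimensional measure.

Proof.  The set is `T '' (L ∩ U)`, where `T = chartAt x₀ ∘ (chartAt x).symm` and
`U = (chartAt x).target ∩ (chartAt x).symm ⁻¹' (chartAt x₀).source` is open; `T` is of class `C^∞` on `U`
(see `contDiffOn` lemmas for transition maps used in `LG/`, `NC/`; e.g. `contDiffGroupoid`), hence locally
Lipschitz: each point of `U` has a neighbourhood `B` on which `T` is Lipschitz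
(`ContDiffAt.exists_lipschitzOnWith`), countably many of them cover `U` (Lindelof), and
`LipschitzOnWith.hausdorffMeasure_image_le` shows that `μH[2] (T '' (L ∩ B)) = 0`. -/
theorem null_change {x : X} {L : Set (E d)} (hL : L ⊆ (chartAt (E d) x).target)
    (h0 : μH[2] L = 0) (x₀ : X) :
    μH[2] (chartAt (E d) x₀ '' (((chartAt (E d) x).symm '' L) ∩ (chartAt (E d) x₀).source)) = 0 := by
  have h1 : chartAt (E d) x₀ '' (((chartAt (E d) x).symm '' L) ∩ (chartAt (E d) x₀).source) ⊆
      (fun w => chartAt (E d) x₀ ((chartAt (E d) x).symm w)) ''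
        (L ∩ (chartAt (E d) x).symm ⁻¹' (chartAt (E d) x₀).source) := by
    rintro _ ⟨_, ⟨⟨w, hw, rfl⟩, hw0⟩, rfl⟩
    exact ⟨w, ⟨hw, hw0⟩, rfl⟩
  refine measure_mono_null h1 (NullAnyAux.image_null (by norm_num) (fun z hz => ?_)
    (measure_mono_null inter_subset_left h0))
  exact ((NullAnyAux.trans_contDiffAt (hL hz.1) hz.2).of_le (by norm_cast)).exists_lipschitzOnWith

/-- A closed structure measure which does not charge the closed set `C` does not charge any set `A`
such that `A \ C` is of zero two-dimensional measure (not necessarily closed or measurable).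

Proof.  Fix `k`.  Let `S = chartAt (x k) '' ({p | p ∈ A ∧ p ∉ C} ∩ source)`, `μH[2] S = 0`, and let
`G = toMeasurable (μH[2]) S ⊇ S`, `μH[2] G = 0`.  Let `μ = (ν k).map Prod.fst`, a finite measure on `E d`, and
`D = {z ∈ K k | (chartAt (x k)).symm z ∈ C}` (compact, `μ D = ν k (ov (x k) (K k) C) = 0`).  The measurable set
`G ∩ K k \ D` has `μ`-measure zero: by inner regularity (`MeasurableSet.measure_eq_iSup_isCompact` or
`exists_isCompact_lt_add`; `E d` is Polish) it suffices that `μ L = 0` for each compact `L ⊆ G ∩ K k \ D`; the set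
`Y = (chartAt (x k)).symm '' L` is compact, hence closed, it is disjoint from `C` and of zero two-dimensional
measure in all charts by `null_change`, so `null_over` (`EM/NullOver.lean`) gives
`ν k (ov (x k) (K k) Y) = 0`, and `Prod.fst ⁻¹' L ⊆ ov (x k) (K k) Y`.
For `ν k`-almost all `q` we have `q.1 ∈ K k`, `q.1 ∉ D`, `q.1 ∉ G ∩ K k \ D`; if `(chartAt (x k)).symm q.1 ∈ A`, then it
is not in `C`, so `q.1 = chartAt (x k) ((chartAt (x k)).symm q.1) ∈ S ⊆ G`, a contradiction. -/
theorem null_any [T2Space X] [CompactSpace X] (hnear : HN.S_Near d) {J : End d X}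
    (hJ2 : ∀ (x : X) (v : TangentSpace (𝓡 d) x), J x (J x v) = -v)
    (hJc : ∀ x₀, ContinuousOn (inChart J x₀) (chartAt (E d) x₀).target)
    (hJL : LocHolder J 1) {κ : Type} [Fintype κ] {x : κ → X} {K : κ → Set (E d)}
    (hK : ∀ k, IsCompact (K k)) (hKt : ∀ k, K k ⊆ (chartAt (E d) (x k)).target)
    {ν : κ → Measure (E d × E d)} (hν : Cyc x K J ν) {A C : Set X} (hC : IsClosed C)
    (hνC : ∀ k, ν k (ov (x k) (K k) C) = 0) (hA : HN (d := d) 2 {p | p ∈ A ∧ p ∉ C}) (k : κ) :
    ∀ᵐ q ∂(ν k), (chartAt (E d) (x k)).symm q.1 ∉ A := by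
  classical
  have hfin := hν.fin k
  obtain ⟨G, hSG, hG, hG0⟩ := exists_measurable_superset_of_null (hA (x k))
  have hms : MeasurableSet (G ∩ K k) := hG.inter (hK k).measurableSet
  have hM : ((ν k).map Prod.fst) (G ∩ K k) = 0 := by
    by_contra hne
    obtain ⟨L, hLs, hL, hLpos⟩ := hms.exists_lt_isCompact_of_ne_top (measure_ne_top _ _)
      (pos_iff_ne_zero.2 hne)
    have hLK : L ⊆ K k := fun z hz => (hLs hz).2
    have hLt : L ⊆ (chartAt (E d) (x k)).target := hLK.trans (hKt k)
    have hY : IsClosed ((chartAt (E d) (x k)).symm '' L) :=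
      (hL.image_of_continuousOn ((chartAt (E d) (x k)).continuousOn_symm.mono hLt)).isClosed
    have hL0 : μH[2] L = 0 := measure_mono_null (fun z hz => (hLs hz).1) hG0
    have h1 := null_over hnear hJ2 hJc hJL hK hKt hν hY (null_change hLt hL0) k
    have h2 : ((ν k).map Prod.fst) L = 0 := by
      rw [Measure.map_apply measurable_fst hL.measurableSet]
      refine measure_mono_null (fun q hq => ?_) h1
      exact ⟨hLK hq, q.1, hq, rfl⟩
    exact hLpos.ne' h2
  have hN : ∀ᵐ q ∂(ν k), q.1 ∉ G ∩ K k := by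
    rw [Measure.map_apply measurable_fst hms] at hM
    exact measure_eq_zero_iff_ae_notMem.1 hM
  have hO : ∀ᵐ q ∂(ν k), q ∉ ov (x k) (K k) C := measure_eq_zero_iff_ae_notMem.1 (hνC k)
  filter_upwards [hν.supp k, hN, hO] with q hq hqN hqO hqA
  have hqC : (chartAt (E d) (x k)).symm q.1 ∉ C := fun h => hqO ⟨hq.1, h⟩
  have hqt : q.1 ∈ (chartAt (E d) (x k)).target := hKt k hq.1
  refine hqN ⟨hSG ⟨(chartAt (E d) (x k)).symm q.1, ⟨⟨hqA, hqC⟩, ?_⟩, ?_⟩, hq.1⟩
  · exact (chartAt (E d) (x k)).map_target hqt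
  · exact (chartAt (E d) (x k)).right_inv hqt

end Pool.Agent.H819.RN
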