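import Mathlib
import Pool.Agent.H819.EM.Chain2
import Pool.Agent.H819.RN.NullAny
import Pool.Agent.H819.RN.Fatou

/-!
# Positivity on closed structure measures over a closed set
-/

set_option autoImplicit false

open Set Filter Topology MeasureTheory Metric
open scoped Manifold ContDiff ENNReal NNReal

noncomputable section

namespace Pool.Agent.H819.RN

open Pool.Agent.Y501.SY
open Pool.Agent.H819
open Pool.Agent.H819.EM
open Pool.Agent.H819.HN (HN)
open Pool.Agent.H819.LG (LocHolder TamedIn extF InClass)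

variable {d : ℕ} {X : Type} [TopologicalSpace X] [ChartedSpace (E d) X] [IsManifold (𝓡 d) ∞ X]

/-- **Positivity on closed structure measures.**  The forms `θ i` of the class are bounded below on
the measure, and off the set `A` their lower limits are positive; `A \ C n` has zero two-dimensional
measure. -/
theorem chain_posS [T2Space X] [CompactSpace X] (hnear : HN.S_Near d) {J : End d X}
    (hJ2 : ∀ (x : X) (v : TangentSpace (𝓡 d) x), J x (J x v) = -v)
    (hJc : ∀ x₀, ContinuousOn (inChart J x₀) (chartAt (E d) x₀).target)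
    (hJL : LocHolder J 1) {σ₀ : Form d X 2} (hσ : IsSmooth σ₀) {κ : Type} [Fintype κ] {x : κ → X}
    {K : κ → Set (E d)}
    (hK : ∀ k, IsCompact (K k)) (hKt : ∀ k, K k ⊆ (chartAt (E d) (x k)).target)
    {θ : ℕ → Form d X 2} (hθ : ∀ i, InClass σ₀ (θ i)) {A : Set X} {B : ℝ}
    {n : ℕ} {C : ℕ → Set X} {τ : ℕ → Form d X 2} (hC0 : C 0 = ∅) (hCc : ∀ i ≤ n, IsClosed (C i))
    (hmono : ∀ i < n, C i ⊆ C (i + 1)) (hτ : ∀ i < n, InClass σ₀ (τ i))
    (hR : ∀ i < n, ∀ p, p ∉ C i → ∃ r, LocR J (τ i) (C (i + 1)) p r)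
    (hE : ∀ i < n, ∀ p, p ∉ C i → ∃ r, LocE J (C (i + 1)) p r)
    (hA : HN (d := d) 2 {p | p ∈ A ∧ p ∉ C n})
    {j : ℕ} (hj : j ≤ n) {ν : κ → Measure (E d × E d)} (hν : Cyc x K J ν)
    (hνC : ∀ k, ν k (ov (x k) (K k) (C j)) = 0)
    (hνB : ∀ k, ∀ᵐ q ∂(ν k), ∀ i, -B ≤ vl J (θ i) (x k) q)
    (hνθ : ∀ k, ∀ᵐ q ∂(ν k), (chartAt (E d) (x k)).symm q.1 ∉ A →
      ∃ c : ℝ, 0 < c ∧ ∀ᶠ i in atTop, c ≤ vl J (θ i) (x k) q) :
    0 ≤ ∑ k, ∫ q, vl J σ₀ (x k) q ∂(ν k) ∧
      (∑ k, ∫ q, vl J σ₀ (x k) q ∂(ν k) ≤ 0 → ∀ k, ν k = 0) := by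
  obtain ⟨i, hi⟩ : ∃ i, n = j + i := ⟨n - j, by omega⟩
  induction i generalizing j ν with
  | zero =>
    have hjn : j = n := by omega
    subst hjn
    have hfin : ∀ k, IsFiniteMeasure (ν k) := hν.fin
    have hl : ∀ k, ∃ L : ℝ, 0 ≤ L ∧ (ν k ≠ 0 → 0 < L) ∧
        ∀ ε : ℝ, 0 < ε → ∀ᶠ i in atTop, L - ε ≤ ∫ q, vl J (θ i) (x k) q ∂(ν k) := by
      intro k
      refine lower_int (fun i => int_vl hJc (hK k) (hKt k) (hθ i).1 (hν.supp k)) (hνB k) ?_
      filter_upwards [hνθ k, null_any hnear hJ2 hJc hJL hK hKt hν (hCc j le_rfl) hνC hA k]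
        with q h3 h4
      exact h3 h4
    choose L hL0 hL1 hL2 using hl
    have hcl : ∀ i, ∑ k, ∫ q, vl J σ₀ (x k) q ∂(ν k) = ∑ k, ∫ q, vl J (θ i) (x k) q ∂(ν k) :=
      fun i => hν.class_eq hJc hK hKt hσ (hθ i)
    have h1 : ∑ k, L k ≤ ∑ k, ∫ q, vl J σ₀ (x k) q ∂(ν k) := by
      refine le_of_forall_pos_le_add fun ε hε => ?_
      have hc : 0 < (Fintype.card κ : ℝ) + 1 := by positivity
      have h2 : ∀ᶠ i in atTop, ∀ k, L k - ε / ((Fintype.card κ : ℝ) + 1) ≤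
          ∫ q, vl J (θ i) (x k) q ∂(ν k) :=
        eventually_all.2 fun k => hL2 k _ (div_pos hε hc)
      obtain ⟨i, hi⟩ := h2.exists
      have h3 : ∑ k, (L k - ε / ((Fintype.card κ : ℝ) + 1)) ≤
          ∑ k, ∫ q, vl J (θ i) (x k) q ∂(ν k) := Finset.sum_le_sum fun k _ => hi k
      rw [Finset.sum_sub_distrib, Finset.sum_const, Finset.card_univ, nsmul_eq_mul, ← hcl i] at h3
      have h4 : (Fintype.card κ : ℝ) * (ε / ((Fintype.card κ : ℝ) + 1)) ≤ ε := by
        rw [mul_div_assoc', div_le_iff₀ hc]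
        nlinarith
      linarith
    have h2 : 0 ≤ ∑ k, L k := Finset.sum_nonneg fun k _ => hL0 k
    refine ⟨h2.trans h1, fun h4 k => ?_⟩
    have h5 : ∑ k, L k = 0 := le_antisymm (h1.trans h4) h2
    have h6 := (Finset.sum_eq_zero_iff_of_nonneg fun k _ => hL0 k).1 h5 k (Finset.mem_univ k)
    by_contra h7
    exact (hL1 k h7).ne' h6
  | succ i ih =>
    have hjn : j < n := by omega
    have hj1 : j + 1 ≤ n := hjn
    have hfin : ∀ k, IsFiniteMeasure (ν k) := hν.fin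
    have hm : ∀ k, MeasurableSet (ov (x k) (K k) (C (j + 1))) := fun k =>
      meas_ov_closed (hK k) (hKt k) (hCc (j + 1) hj1)
    have c1 : Cyc x K J (fun k => (ν k).restrict (ov (x k) (K k) (C (j + 1)))) :=
      chain_cyc hJc hK hKt hC0 hCc hmono hR hE hj1 hν
    have c2 : Cyc x K J (fun k => (ν k).restrict (ov (x k) (K k) (C (j + 1)))ᶜ) :=
      hν.compl hJc hK hKt (hCc (j + 1) hj1) c1
    have hz2 : ∀ k, ((ν k).restrict (ov (x k) (K k) (C (j + 1)))ᶜ)
        (ov (x k) (K k) (C (j + 1))) = 0 := by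
      intro k
      rw [Measure.restrict_apply (hm k), inter_compl_self, measure_empty]
    obtain ⟨p2, q2⟩ := ih hj1 c2 hz2 (fun k => ae_restrict_of_ae (hνB k))
      (fun k => ae_restrict_of_ae (hνθ k)) (by omega)
    -- the part over `C (j + 1)`
    have hpos : ∀ k, ∀ᵐ q ∂((ν k).restrict (ov (x k) (K k) (C (j + 1)))),
        0 < vl J (τ j) (x k) q := by
      intro k
      rw [ae_restrict_iff' (hm k)]
      have h2 : ∀ᵐ q ∂(ν k), q ∉ ov (x k) (K k) (C j) := by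
        rw [ae_iff]
        simp only [not_not]
        exact hνC k
      filter_upwards [restrict_pos hJ2 hJc hK hKt hν (hR j hjn) k, h2, hν.supp k]
        with q h3 h4 h5 h6
      exact h3 h6 fun h7 => h4 ⟨h5.1, h7⟩
    have hτs : IsSmooth (τ j) := (hτ j hjn).1
    have hi1 : ∀ k, Integrable (vl J (τ j) (x k))
        ((ν k).restrict (ov (x k) (K k) (C (j + 1)))) := fun k =>
      (int_vl hJc (hK k) (hKt k) hτs (hν.supp k)).restrict
    have hn1 : ∀ k, 0 ≤ ∫ q, vl J (τ j) (x k) q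
        ∂((ν k).restrict (ov (x k) (K k) (C (j + 1)))) := by
      intro k
      refine integral_nonneg_of_ae ?_
      filter_upwards [hpos k] with q hq
      exact hq.le
    have hcl := c1.class_eq hJc hK hKt hσ (hτ j hjn)
    have hsplit : ∑ k, ∫ q, vl J σ₀ (x k) q ∂(ν k) =
        ∑ k, ∫ q, vl J σ₀ (x k) q ∂((ν k).restrict (ov (x k) (K k) (C (j + 1)))) +
        ∑ k, ∫ q, vl J σ₀ (x k) q ∂((ν k).restrict (ov (x k) (K k) (C (j + 1)))ᶜ) := by
      rw [← Finset.sum_add_distrib]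
      refine Finset.sum_congr rfl fun k _ => ?_
      exact (integral_add_compl (hm k) (int_vl hJc (hK k) (hKt k) hσ (hν.supp k))).symm
    have hs1 : 0 ≤ ∑ k, ∫ q, vl J (τ j) (x k) q
        ∂((ν k).restrict (ov (x k) (K k) (C (j + 1)))) := Finset.sum_nonneg fun k _ => hn1 k
    rw [hsplit, hcl]
    refine ⟨add_nonneg hs1 p2, fun h4 k => ?_⟩
    have h5 : ∑ k, ∫ q, vl J (τ j) (x k) q
        ∂((ν k).restrict (ov (x k) (K k) (C (j + 1)))) = 0 := by
      refine le_antisymm ?_ hs1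
      have := p2
      linarith
    have h6 := (Finset.sum_eq_zero_iff_of_nonneg fun k _ => hn1 k).1 h5 k (Finset.mem_univ k)
    have h7 := eq_zero_of_int (hi1 k) (hpos k) h6
    have h8 := q2 (by linarith) k
    have h9 := Measure.restrict_add_restrict_compl (μ := ν k) (hm k)
    rw [h7, zero_add] at h9
    rw [← h9]
    exact h8

end Pool.Agent.H819.RN
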