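import Mathlib
import Pool.Agent.H819.EM.Dual

/-!
# Duality over compact sets of directions
-/

set_option autoImplicit false

open Set Filter Topology MeasureTheory Metric
open scoped Manifold ContDiff ENNReal NNReal

noncomputable section

namespace Pool.Agent.H819.RN

open Pool.Agent.Y501.SY
open Pool.Agent.H819
open Pool.Agent.H819.EM
open Pool.Agent.H819.LG (LocHolder TamedIn extF InClass)

variable {d : ℕ} {X : Type} [TopologicalSpace X] [ChartedSpace (E d) X] [IsManifold (𝓡 d) ∞ X]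

/-- **Duality over a compact set of directions.**  `T k` is a compact set of pairs `(z, u)`, `z ∈ K k`,
`‖u‖ = 1`.  If no smooth closed form in the class of `σ₀` is positive on all of them, then there is a
nonzero closed structure measure carried by the sets `T k` which is not positive on `σ₀`. -/
theorem duality_on {J : End d X}
    (hJc : ∀ x₀, ContinuousOn (inChart J x₀) (chartAt (E d) x₀).target)
    {σ₀ : Form d X 2} (hσ : IsSmooth σ₀) (hcl : IsClosedForm σ₀) {κ : Type} [Fintype κ]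
    (x : κ → X) (K : κ → Set (E d)) (hK : ∀ k, IsCompact (K k))
    (hKt : ∀ k, K k ⊆ (chartAt (E d) (x k)).target)
    (T : κ → Set (E d × E d)) (hT : ∀ k, IsCompact (T k))
    (hTK : ∀ k, T k ⊆ K k ×ˢ sphere (0 : E d) 1)
    (h : ¬ ∃ η : Form d X 2, InClass σ₀ η ∧ ∀ k, ∀ q ∈ T k, 0 < vl J η (x k) q) :
    ∃ ν : κ → Measure (E d × E d), Cyc x K J ν ∧ (∀ k, ∀ᵐ q ∂(ν k), q ∈ T k) ∧
      (∃ k, ν k ≠ 0) ∧ ∑ k, ∫ q, vl J σ₀ (x k) q ∂(ν k) ≤ 0 := by
  classical
  have hScomp : ∀ i, CompactSpace (T i : Set (E d × E d)) := fun i =>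
    isCompact_iff_compactSpace.1 (hT i)
  set S := Σ i : κ, (T i : Set (E d × E d)) with hS
  have hcont : ∀ σ : Form d X 2, IsSmooth σ →
      Continuous (fun s : S => vl J σ (x s.1) (s.2 : E d × E d)) := by
    intro σ hσ
    refine continuous_sigma fun i => ?_
    exact (continuousOn_iff_continuous_domRestrict.1
      ((continuousOn_vl hJc hσ (x i) (hKt i)).mono (hTK i)))
  let W : Submodule ℝ C(S, ℝ) :=
    { carrier := {g | ∃ (ζ : Form d X 1) (ξ : Form d X 2), IsSmooth ζ ∧ IsSmooth ξ ∧ IsD ζ ξ ∧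
        ∀ s : S, g s = vl J ξ (x s.1) (s.2 : E d × E d)}
      add_mem' := by
        rintro g₁ g₂ ⟨ζ₁, ξ₁, h1, h2, h3, h4⟩ ⟨ζ₂, ξ₂, k1, k2, k3, k4⟩
        refine ⟨ζ₁ + ζ₂, ξ₁ + ξ₂, h1.add k1, h2.add k2, h3.add k3 h1 k1, fun s => ?_⟩
        rw [ContinuousMap.add_apply, h4, k4, vl_add]
      zero_mem' := by
        refine ⟨0, 0, IsSmooth.zero, IsSmooth.zero, IsD.zero, fun s => ?_⟩
        have h0 := vl_smul J 0 (0 : Form d X 2) (x s.1) (s.2 : E d × E d)
        rw [smul_zero, zero_mul] at h0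
        rw [h0]
        rfl
      smul_mem' := by
        rintro c g ⟨ζ, ξ, h1, h2, h3, h4⟩
        refine ⟨c • ζ, c • ξ, h1.smul c, h2.smul c, h3.smul c, fun s => ?_⟩
        rw [ContinuousMap.smul_apply, h4, vl_smul, smul_eq_mul] }
  let z : C(S, ℝ) := ⟨_, hcont σ₀ hσ⟩
  have hneg : ∀ f ∈ W, ¬ ∀ s, 0 < z s + f s := by
    rintro f ⟨ζ, ξ, h1, h2, h3, h4⟩ hpos
    refine h ⟨σ₀ + ξ, ⟨hσ.add h2, ?_, ζ, h1, ?_⟩, fun k q hq => ?_⟩
    · have h5 := IsD.add hcl (closed_of_isD h1 h3) hσ h2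
      rwa [add_zero] at h5
    · rwa [add_sub_cancel_left]
    · have h5 := hpos ⟨k, ⟨q, hq⟩⟩
      rw [h4] at h5
      have h6 : vl J σ₀ (x k) q + vl J ξ (x k) q = vl J (σ₀ + ξ) (x k) q :=
        (vl_add J σ₀ ξ (x k) q).symm
      have h7 : 0 < vl J σ₀ (x k) q + vl J ξ (x k) q := h5
      rw [h6] at h7
      exact h7
  obtain ⟨Λ, hΛ, hΛ0, hΛW, hΛz⟩ := sep W z hneg
  have hclopen : ∀ k : κ, IsClopen ((fun s : S => s.1) ⁻¹' {k}) := fun k =>
    ⟨isClosed_sigma_iff.2 fun i => isClosed_const (p := i = k),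
      isOpen_sigma_iff.2 fun i => isOpen_const (p := i = k)⟩
  have hb : Continuous (fun s : S => (s.2 : E d × E d)) :=
    continuous_sigma fun i => continuous_subtype_val
  have himg : ∀ k : κ, (fun s : S => (s.2 : E d × E d)) '' ((fun s : S => s.1) ⁻¹' {k}) ⊆
      T k := by
    rintro k _ ⟨⟨i, q⟩, hs, rfl⟩
    have hs' : i = k := hs
    subst hs'
    exact q.2
  obtain ⟨ν, hν1, hν2, hν3, hν4⟩ := split_measure (fun s : S => s.1) hclopen
    (fun s : S => (s.2 : E d × E d)) hb Λ hΛ hΛ0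
  refine ⟨ν, ⟨hν1, fun k => ?_, fun ζ ξ h1 h2 h3 => ?_⟩, fun k => ?_, hν3, ?_⟩
  · filter_upwards [hν2 k] with q hq
    have hq' := hTK k (himg k hq)
    refine ⟨hq'.1, ?_⟩
    have := hq'.2
    rwa [mem_sphere_zero_iff_norm] at this
  · rw [hν4 (fun k => vl J ξ (x k)) ⟨_, hcont ξ h2⟩
      (fun k => (continuousOn_vl hJc h2 (x k) (hKt k)).mono ((himg k).trans (hTK k)))
      fun s => rfl]
    exact hΛW _ ⟨ζ, ξ, h1, h2, h3, fun s => rfl⟩
  · filter_upwards [hν2 k] with q hq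
    exact himg k hq
  · rw [hν4 (fun k => vl J σ₀ (x k)) z
      (fun k => (continuousOn_vl hJc hσ (x k) (hKt k)).mono ((himg k).trans (hTK k)))
      fun s => rfl]
    exact hΛz

end Pool.Agent.H819.RN
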