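import Mathlib
import Pool.Agent.H819.RN.DualOn
import Pool.Agent.H819.RN.ChainS
import Pool.Agent.H819.RN.Semi
import Pool.Agent.H819.NC.Fin

/-!
# Forms which are positive over a closed set
-/

set_option autoImplicit false

open Set Filter Topology MeasureTheory Metric
open scoped Manifold ContDiff ENNReal NNReal

noncomputable section

namespace Pool.Agent.H819.RN

open Pool.Agent.Y501.SY
open Pool.Agent.H819
open Pool.Agent.H819.EM
open Pool.Agent.H819.HN (HN HN.mono near)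
open Pool.Agent.H819.LG (LocHolder TamedIn extF InClass)

variable {d : ℕ} {X : Type} [TopologicalSpace X] [ChartedSpace (E d) X]

/-- The closed set `F` is numerically good: the degrees are positive on a chain `C`, and some forms
`θ i` in the class of `ζ` are bounded below on the null vectors of `σ` over `F`, and off `C n` and off a
set of zero two-dimensional measure their lower limits on these vectors are positive. -/
def NumFibre (σ ζ : Form d X 2) (J : End d X) (F : Set X) : Prop :=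
  ∃ (n : ℕ) (C : ℕ → Set X) (θ : ℕ → Form d X 2), NC.CurveChain ζ J n C ∧
    (∀ i, InClass ζ (θ i)) ∧
    (∀ (x₀ : X) (N : Set (E d)), IsCompact N → N ⊆ (chartAt (E d) x₀).target → ∃ B : ℝ, ∀ i,
      ∀ z ∈ N, (chartAt (E d) x₀).symm z ∈ F → ∀ u : E d, vl J σ x₀ (z, u) = 0 →
        -(B * ‖u‖ ^ 2) ≤ vl J (θ i) x₀ (z, u)) ∧
    HN (d := d) 2 {x | x ∈ F ∧ x ∉ C n ∧ ∃ v : TangentSpace (𝓡 d) x, v ≠ 0 ∧
      σ x ![v, J x v] = 0 ∧ ¬ ∃ c : ℝ, 0 < c ∧ ∀ᶠ i in atTop, c ≤ θ i x ![v, J x v]}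

variable [IsManifold (𝓡 d) ∞ X]

omit [IsManifold (𝓡 d) ∞ X] in
theorem compact_over {x : X} {K : Set (E d)} (hK : IsCompact K)
    (hKt : K ⊆ (chartAt (E d) x).target) {F : Set X} (hF : IsClosed F)
    {g : E d × E d → ℝ} (hg : ContinuousOn g (K ×ˢ sphere (0 : E d) 1)) :
    IsCompact {q : E d × E d | q ∈ K ×ˢ sphere (0 : E d) 1 ∧ (chartAt (E d) x).symm q.1 ∈ F ∧
      g q = 0} := by
  have h1 : IsCompact (K ×ˢ sphere (0 : E d) 1) := hK.prod (isCompact_sphere 0 1)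
  have h2 : ContinuousOn (fun q : E d × E d => (chartAt (E d) x).symm q.1)
      (K ×ˢ sphere (0 : E d) 1) :=
    ((chartAt (E d) x).continuousOn_symm.mono hKt).comp continuousOn_fst fun q hq => hq.1
  have h3 := h2.preimage_isClosed_of_isClosed h1.isClosed hF
  have h4 := hg.preimage_isClosed_of_isClosed h1.isClosed (isClosed_singleton (x := (0 : ℝ)))
  refine h1.of_isClosed_subset ?_ fun q hq => hq.1
  have h5 : {q : E d × E d | q ∈ K ×ˢ sphere (0 : E d) 1 ∧ (chartAt (E d) x).symm q.1 ∈ F ∧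
      g q = 0} = (K ×ˢ sphere (0 : E d) 1 ∩ (fun q : E d × E d => (chartAt (E d) x).symm q.1) ⁻¹' F)
        ∩ (K ×ˢ sphere (0 : E d) 1 ∩ g ⁻¹' {0}) := by
    ext q
    constructor
    · rintro ⟨g1, g2, g3⟩
      exact ⟨⟨g1, g2⟩, ⟨g1, g3⟩⟩
    · rintro ⟨⟨g1, g2⟩, ⟨-, g3⟩⟩
      exact ⟨g1, g2, g3⟩
  rw [h5]
  exact h3.inter h4

theorem A_ne (x : X) {z : E d} (hz : z ∈ (chartAt (E d) x).target) {u : E d}
    (hu : u ∈ sphere (0 : E d) 1) : Pool.Agent.Y455.SY.A x z u ≠ 0 := by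
  intro h4
  have h5 := Pool.Agent.Y455.SY.BA x hz u
  rw [h4, map_zero] at h5
  rw [← h5, mem_sphere_zero_iff_norm, norm_zero] at hu
  exact zero_ne_one hu

theorem fibre_pos [T2Space X] [CompactSpace X] {J : End d X}
    (hJ2 : ∀ (x : X) (v : TangentSpace (𝓡 d) x), J x (J x v) = -v)
    (hJ : ∀ x₀, ContinuousOn (inChart J x₀) (chartAt (E d) x₀).target)
    (hJL : LocHolder J 1) {σ ζ : Form d X 2} (hσ : IsSmooth σ) (hζ : IsSmooth ζ)
    (hζc : IsClosedForm ζ) {F : Set X} (hF : IsClosed F) (h : NumFibre σ ζ J F) :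
    ∃ η : Form d X 2, InClass ζ η ∧ ∀ x ∈ F, ∀ v : TangentSpace (𝓡 d) x, v ≠ 0 →
      σ x ![v, J x v] = 0 → 0 < η x ![v, J x v] := by
  obtain ⟨n, C₀, θ, hC, hθ, hθ0, hθ1⟩ := h
  obtain ⟨C, hch, hCn⟩ := NC.chain_of_curve hJ2 hJ hζ hζc hC
  obtain ⟨m, x, K, N, c1, -, c3, c4, c5⟩ := LG.exists_cover d X
  have hKt : ∀ i, K i ⊆ (chartAt (E d) (x i)).target := fun i =>
    (c3 i).trans (interior_subset.trans (c4 i))
  have hcσ : ∀ i, ContinuousOn (vl J σ (x i)) (K i ×ˢ sphere (0 : E d) 1) := fun i =>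
    continuousOn_vl hJ hσ (x i) (hKt i)
  set T : Fin m → Set (E d × E d) := fun i => {q | q ∈ K i ×ˢ sphere (0 : E d) 1 ∧
    (chartAt (E d) (x i)).symm q.1 ∈ F ∧ vl J σ (x i) q = 0} with hT
  have hTc : ∀ i, IsCompact (T i) := fun i => compact_over (c1 i) (hKt i) hF (hcσ i)
  have hTK : ∀ i, T i ⊆ K i ×ˢ sphere (0 : E d) 1 := fun i q hq => hq.1
  by_cases hη : ∃ η : Form d X 2, InClass ζ η ∧ ∀ k, ∀ q ∈ T k, 0 < vl J η (x k) q
  · obtain ⟨η, h1, h2⟩ := hη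
    refine ⟨η, h1, fun p hp v hv hv0 => ?_⟩
    obtain ⟨i, z, hz, rfl⟩ := c5 p
    obtain ⟨w, hw⟩ := Pool.Agent.Y455.SY.A_surj (x i) (hKt i hz) v
    have hw0 : w ≠ 0 := by
      rintro rfl
      apply hv
      rw [← hw, map_zero]
      rfl
    have e1 : ∀ s : Form d X 2, s ((chartAt (E d) (x i)).symm z)
        ![v, J ((chartAt (E d) (x i)).symm z) v] = Pool.Agent.Y455.SY.Q s J (x i) z w := by
      intro s
      rw [Pool.Agent.Y455.SY.Q_eq s J (x i) (hKt i hz), hw]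
    have hn : 0 < ‖w‖ := norm_pos_iff.2 hw0
    have e2 : ∀ s : Form d X 2, Pool.Agent.Y455.SY.Q s J (x i) z w =
        ‖w‖ ^ 2 * vl J s (x i) (z, (‖w‖⁻¹ : ℝ) • w) := by
      intro s
      have h3 := Pool.Agent.Y455.SY.Q_smul s J (x i) z ((‖w‖⁻¹ : ℝ) • w) ‖w‖
      rw [smul_smul, mul_inv_cancel₀ hn.ne', one_smul] at h3
      exact h3
    have hs : (‖w‖⁻¹ : ℝ) • w ∈ sphere (0 : E d) 1 := by
      rw [mem_sphere_zero_iff_norm, norm_smul, norm_inv, norm_norm, inv_mul_cancel₀ hn.ne']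
    rw [e1, e2] at hv0 ⊢
    refine mul_pos (by positivity) (h2 i _ ⟨⟨hz, hs⟩, hp, ?_⟩)
    rcases mul_eq_zero.1 hv0 with h3 | h3
    · exact absurd h3 (by positivity)
    · exact h3
  · exfalso
    obtain ⟨ν, hν, hνT, ⟨k, hk⟩, hle⟩ := duality_on hJ hζ hζc x K c1 hKt T hTc hTK hη
    choose B hB using fun i => hθ0 (x i) (K i) (c1 i) (hKt i)
    obtain ⟨B₀, hB₀⟩ : ∃ B₀ : ℝ, ∀ i, B i ≤ B₀ := by
      rcases isEmpty_or_nonempty (Fin m) with h | h
      · exact ⟨0, fun i => (h.false i).elim⟩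
      · obtain ⟨i, hi⟩ := Finite.exists_max B
        exact ⟨B i, hi⟩
    have hτ : ∀ i, ∃ τ : Form d X 2, i < n + 2 → InClass ζ τ ∧ Along J τ (C i) (C (i + 1)) := by
      intro i
      by_cases hi : i < n + 2
      · obtain ⟨τ, hτ⟩ := hch.pos i hi
        exact ⟨τ, fun _ => hτ⟩
      · exact ⟨0, fun h => absurd h hi⟩
    choose τ hτ using hτ
    have hν0 : ∀ k, ν k (ov (x k) (K k) (C 0)) = 0 := by
      intro k
      have h1 : ov (x k) (K k) (C 0) = ∅ := by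
        rw [hch.bot]
        exact eq_empty_of_forall_notMem fun q hq => hq.2
      rw [h1, measure_empty]
    refine hk ((chain_posS (near d) hJ2 hJ hJL hζ c1 hKt hθ (A := {p | p ∈ F ∧
      ∃ v : TangentSpace (𝓡 d) p, v ≠ 0 ∧ σ p ![v, J p v] = 0 ∧
        ¬ ∃ c : ℝ, 0 < c ∧ ∀ᶠ i in atTop, c ≤ θ i p ![v, J p v]}) (B := B₀) hch.bot hch.closed
      hch.mono (fun i hi => (hτ i hi).1) ?_ ?_ ?_ (Nat.zero_le (n + 2)) hν hν0 ?_ ?_).2 hle k)
    · intro i hi p hp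
      obtain ⟨r, hr, -⟩ := loc_data hJ2 (hch.closed (i + 1) hi) (hτ i hi).2 hp
      exact ⟨r, hr⟩
    · intro i hi p hp
      obtain ⟨r, -, hr⟩ := loc_data hJ2 (hch.closed (i + 1) hi) (hτ i hi).2 hp
      exact ⟨r, hr⟩
    · refine hθ1.mono ?_
      rintro p ⟨⟨hp1, hp3⟩, hp2⟩
      rw [hCn] at hp2
      exact ⟨hp1, hp2, hp3⟩
    · intro i
      filter_upwards [hνT i] with q hq j
      have h1 := hB i j q.1 hq.1.1 hq.2.1 q.2 hq.2.2
      have h2 : ‖q.2‖ = 1 := mem_sphere_zero_iff_norm.1 hq.1.2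
      rw [h2, one_pow, mul_one] at h1
      exact (neg_le_neg (hB₀ i)).trans h1
    · intro i
      filter_upwards [hνT i] with q hq hqA
      have h3 := exists_vl σ J (x i) (hKt i hq.1.1) q.2
      by_contra h4
      refine hqA ⟨hq.2.1, Pool.Agent.Y455.SY.A (x i) q.1 q.2, A_ne (x i) (hKt i hq.1.1) hq.1.2, ?_,
        ?_⟩
      · rw [← h3]
        exact hq.2.2
      · rintro ⟨c, hc, h5⟩
        refine h4 ⟨c, hc, ?_⟩
        filter_upwards [h5] with j hj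
        rw [← exists_vl (θ j) J (x i) (hKt i hq.1.1) q.2] at hj
        exact hj

/-- the exact correction -/
theorem fibre_exact [T2Space X] [CompactSpace X] {J : End d X}
    (hJ2 : ∀ (x : X) (v : TangentSpace (𝓡 d) x), J x (J x v) = -v)
    (hJ : ∀ x₀, ContinuousOn (inChart J x₀) (chartAt (E d) x₀).target)
    (hJL : LocHolder J 1) {σ ζ : Form d X 2} (hσ : IsSmooth σ) (hζ : IsSmooth ζ)
    (hζc : IsClosedForm ζ) {F : Set X} (hF : IsClosed F) (h : NumFibre σ ζ J F) :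
    ∃ (β : Form d X 1) (ρ : Form d X 2), IsSmooth β ∧ IsSmooth ρ ∧ IsD β ρ ∧
      ∀ x ∈ F, ∀ v : TangentSpace (𝓡 d) x, v ≠ 0 → σ x ![v, J x v] = 0 →
        0 < (ζ + ρ) x ![v, J x v] := by
  obtain ⟨η, ⟨h1, -, β, h3, h4⟩, h5⟩ := fibre_pos hJ2 hJ hJL hσ hζ hζc hF h
  have hsub : IsSmooth (η - ζ) := by
    intro U φ hU hφ
    exact (h1 U φ hU hφ).sub (hζ U φ hU hφ)
  refine ⟨β, η - ζ, h3, hsub, h4, ?_⟩
  rw [add_sub_cancel]
  exact h5

/-- lower bounds of smooth forms in the charts -/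
theorem lower_vl {J : End d X}
    (hJ : ∀ x₀, ContinuousOn (inChart J x₀) (chartAt (E d) x₀).target) {ζ : Form d X 2}
    (hζ : IsSmooth ζ) (x₀ : X) {N : Set (E d)} (hN : IsCompact N)
    (hNt : N ⊆ (chartAt (E d) x₀).target) :
    ∃ B : ℝ, ∀ z ∈ N, ∀ u : E d, -(B * ‖u‖ ^ 2) ≤ vl J ζ x₀ (z, u) := by
  have h1 : ContinuousOn (vl J ζ x₀) (N ×ˢ sphere (0 : E d) 1) := continuousOn_vl hJ hζ x₀ hNt
  have h2 : IsCompact (N ×ˢ sphere (0 : E d) 1) := hN.prod (isCompact_sphere 0 1)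
  obtain ⟨B, hB⟩ := h2.exists_bound_of_continuousOn h1
  refine ⟨B, fun z hz u => ?_⟩
  by_cases hu0 : u = 0
  · have h3 : vl J ζ x₀ (z, u) = 0 := by
      rw [hu0]
      exact (pb (chartAt (E d) x₀).symm ζ z).map_coord_zero 0 rfl
    rw [h3, hu0, norm_zero]
    simp
  · have hn : 0 < ‖u‖ := norm_pos_iff.2 hu0
    have h3 := Pool.Agent.Y455.SY.Q_smul ζ J x₀ z ((‖u‖⁻¹ : ℝ) • u) ‖u‖
    rw [smul_smul, mul_inv_cancel₀ hn.ne', one_smul] at h3
    have h4 : (‖u‖⁻¹ : ℝ) • u ∈ sphere (0 : E d) 1 := by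
      rw [mem_sphere_zero_iff_norm, norm_smul, norm_inv, norm_norm, inv_mul_cancel₀ hn.ne']
    have h5 := hB (z, (‖u‖⁻¹ : ℝ) • u) ⟨hz, h4⟩
    have h6 : -B ≤ Pool.Agent.Y455.SY.Q ζ J x₀ z ((‖u‖⁻¹ : ℝ) • u) := (abs_le.1 h5).1
    show -(B * ‖u‖ ^ 2) ≤ Pool.Agent.Y455.SY.Q ζ J x₀ z u
    rw [h3]
    nlinarith [mul_le_mul_of_nonneg_left h6 (sq_nonneg ‖u‖)]

/-- the form `(w - σ) / t` is in the class of `ζ`, if `w` is in the class of `σ + t ζ` -/
theorem inClass_scaled {w σ ζ : Form d X 2} (hw : IsSmooth w) (hwc : IsClosedForm w)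
    (hσ : IsSmooth σ) (hσc : IsClosedForm σ) {t : ℝ} (ht : 0 < t) {β : Form d X 1}
    (hβ : IsSmooth β) (hd : IsD β (w - (σ + t • ζ))) : InClass ζ (t⁻¹ • (w - σ)) := by
  have h0 : w - σ = w + (-1 : ℝ) • σ := by
    funext x
    ext v
    show w x v - σ x v = w x v + (-1 : ℝ) * σ x v
    ring
  refine ⟨?_, ?_, t⁻¹ • β, hβ.smul _, ?_⟩
  · rw [h0]
    exact (hw.add (hσ.smul _)).smul _
  · have h1 := (IsD.add hwc (IsD.smul hσc (-1 : ℝ)) hw (hσ.smul _)).smul t⁻¹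
    rw [smul_zero, add_zero, smul_zero, ← h0] at h1
    exact h1
  · have h1 := hd.smul t⁻¹
    have h2 : t⁻¹ • (w - (σ + t • ζ)) = t⁻¹ • (w - σ) - ζ := by
      rw [← sub_sub, smul_sub t⁻¹ (w - σ), smul_smul, inv_mul_cancel₀ ht.ne', one_smul]
    rw [h2] at h1
    exact h1

end Pool.Agent.H819.RN
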