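import Mathlib
import Pool.Agent.H819.RN.Pub
import Pool.Agent.H819.RN.Fibre
import Pool.Agent.H819.RN.Conv
import Pool.Agent.H819.NC.Br
import Pool.Graph.R_seed8.Y501.SY.Bridge

/-!
# Comparison of the definitions, and the theorem
-/

set_option autoImplicit false

open Set Filter Topology MeasureTheory Metric
open scoped Manifold ContDiff ENNReal NNReal

noncomputable section

namespace Pool.Agent.H819.RNP

open Pool.Agent.Y501 (SY.E)
open Pool.Agent.Y501.SYP hiding cs smooth_iff isD_iff closed_iff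
open Pool.Agent.H819.LGP Pool.Agent.H819.LNP Pool.Agent.H819.HNP
open Pool.Agent.H819.EMP Pool.Agent.H819.NCP
open Pool.Agent

section

variable {d : ℕ} {X : Type} [TopologicalSpace X] [ChartedSpace (ES d) X]

attribute [local instance] Pool.Agent.H819.LGP.cs

theorem num_of {σ ζ : Form (ES d) X 2} {J : End (ES d) X} {F : Set X}
    (h : NumericallyGood σ ζ J F) : H819.RN.NumFibre (d := d) (X := X) σ ζ J F := by
  obtain ⟨n, C, θ, h1, h2, h3, h4⟩ := h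
  refine ⟨n, C, θ, chain_of h1, fun i => (inClass_iff ζ (θ i)).1 (h2 i),
    fun x₀ N hN hNt => ?_, ?_⟩
  · obtain ⟨B, hB⟩ := h3 x₀ N ⟨hN, hNt⟩
    exact ⟨B, hB⟩
  · have h5 : H819.HN.HN (d := d) (X := X) 2 {x | x ∈ F ∧ x ∉ C n ∧ ¬ PositiveLimit σ J θ x} :=
      h4
    refine H819.HN.HN.mono (d := d) h5 ?_
    rintro x ⟨g1, g2, v, g3, g4, g5⟩
    exact ⟨g1, g2, fun h6 => g5 (h6 v g3 g4)⟩

variable [IsManifold 𝓘(ℝ, ES d) ∞ X] [CompactSpace X] [T2Space X]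

theorem good_of {J : End (ES d) X} (hJ : IsAlmostComplex J) (hJL : LocHolder J 1)
    {σ ζ : Form (ES d) X 2} (hσ : IsSmooth σ) (hζ : IsSmooth ζ) (hζc : IsClosedForm ζ)
    {F : Set X} (hF : IsClosed F) (h : NumericallyGood σ ζ J F) : GoodFibre σ ζ J F := by
  have hm : IsManifold (𝓡 d) ∞ X := (inferInstance : IsManifold 𝓘(ℝ, ES d) ∞ X)
  obtain ⟨β, ρ, h1, h2, h3, h5⟩ := H819.RN.fibre_exact (d := d) (X := X) hJ.sq (cont_of hJ)
    ((holder_iff J 1).1 hJL) ((smooth_iff σ).1 hσ) ((smooth_iff ζ).1 hζ)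
    ((closed_iff ζ).1 hζc) hF (num_of h)
  have hexc : Exc σ (addF ζ ρ) J F = ∅ := by
    refine eq_empty_of_forall_notMem ?_
    rintro x ⟨hx, v, hv, g1, g2⟩
    exact (h5 x hx v hv g1).ne' g2
  refine ⟨β, ρ, (smooth_iff β).2 h1, (smooth_iff ρ).2 h2, (isD_iff β ρ).2 h3, ?_, ?_⟩
  · intro x hx v hv
    by_cases h0 : v = 0
    · refine le_of_eq ?_
      unfold qd
      rw [h0]
      exact ((addF ζ ρ x).map_coord_zero 0 rfl).symm
    · exact (h5 x hx v h0 hv).le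
  · intro z hz
    rw [hexc] at hz
    exact absurd hz (notMem_empty z)

theorem near_of {m : ℕ} {Y : Type} [TopologicalSpace Y] [ChartedSpace (ES m) Y]
    [IsManifold 𝓘(ℝ, ES m) ∞ Y] [T2Space Y] [SigmaCompactSpace Y]
    {J : End (ES d) X} (hJ : IsAlmostComplex J) (hJL : LocHolder J 1)
    {f : X → Y} (hf : ContMDiff 𝓘(ℝ, ES d) 𝓘(ℝ, ES m) ∞ f)
    {σ ζ : Form (ES d) X 2} (hσ : IsSmooth σ) (hσc : IsClosedForm σ)
    (hζ : IsSmooth ζ) (hζc : IsClosedForm ζ)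
    (hpos : ∀ (x : X) (v : TangentSpace 𝓘(ℝ, ES d) x), 0 ≤ qd σ J x v)
    (hker : ∀ (x : X) (v : TangentSpace 𝓘(ℝ, ES d) x), qd σ J x v = 0 →
      mfderiv 𝓘(ℝ, ES d) 𝓘(ℝ, ES m) f x v = 0)
    (h : ∀ y : Y, NumericallyGood σ ζ J (f ⁻¹' {y})) : TamedNear σ ζ J := by
  obtain ⟨α, ρ, h1, h2, h3, t₀, ht₀, h4⟩ := twoLevel J hJ f hf σ ζ hσ hσc hζ hζc hpos hker
    fun y => good_of hJ hJL hσ hζ hζc (isClosed_singleton.preimage hf.continuous) (h y)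
  refine ⟨t₀, ht₀, fun t ht ht' => ⟨_, h4 t ht ht', t • α, ?_, ?_⟩⟩
  · exact (smooth_iff _).2 (((smooth_iff α).1 h1).smul t)
  · have h5 := ((isD_iff α ρ).1 h3).smul t
    refine (isD_iff _ _).2 ?_
    have h6 : (subF (comb σ t (addF ζ ρ)) (comb σ t ζ) : Form (ES d) X 2) =
        fun x => t • ρ x := by
      funext x
      show σ x + t • (ζ x + ρ x) - (σ x + t • ζ x) = t • ρ x
      rw [smul_add]
      abel
    rw [h6]
    exact h5

omit [CompactSpace X] in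
theorem empty_chain (ζ : Form (ES d) X 2) (J : End (ES d) X) :
    NumericalChain ζ J 0 fun _ => ∅ :=
  ⟨curve_empty ζ J, fun _ _ => isClosed_empty, fun _ _ => Subset.rfl,
    fun i hi => absurd hi (Nat.not_lt_zero i)⟩

omit [CompactSpace X] in
theorem good_of_tamed {J : End (ES d) X} {σ ζ : Form (ES d) X 2} (hσ : IsSmooth σ)
    (hσc : IsClosedForm σ) {t : ℝ} (ht : 0 < t) (h : TamedIn (comb σ t ζ) J) (F : Set X) :
    NumericallyGood σ ζ J F := by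
  have hm : IsManifold (𝓡 d) ∞ X := (inferInstance : IsManifold 𝓘(ℝ, ES d) ∞ X)
  obtain ⟨w, hw, β, hβ, hD⟩ := h
  have hθ : InClass ζ (fun x => t⁻¹ • (w x - σ x) : Form (ES d) X 2) := by
    exact (inClass_iff ζ _).2 (H819.RN.inClass_scaled (d := d) (X := X)
      ((smooth_iff w).1 hw.smooth) ((closed_iff w).1 hw.closed) ((smooth_iff σ).1 hσ)
      ((closed_iff σ).1 hσc) ht ((smooth_iff β).1 hβ) ((isD_iff β _).1 hD))
  have hval : ∀ (x : X) (v : TangentSpace 𝓘(ℝ, ES d) x), qd σ J x v = 0 →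
      qd (fun x => t⁻¹ • (w x - σ x) : Form (ES d) X 2) J x v = t⁻¹ * qd w J x v := by
    intro x v hv
    have h1 : qd (fun x => t⁻¹ • (w x - σ x) : Form (ES d) X 2) J x v =
      t⁻¹ * (qd w J x v - qd σ J x v) := rfl
    rw [h1, hv, sub_zero]
  refine ⟨0, fun _ => ∅, fun _ => _, empty_chain ζ J, fun _ => hθ, ?_, ?_⟩
  · intro x₀ N hN
    refine ⟨0, fun _ z hz _ u hu => ?_⟩
    rw [zero_mul, neg_zero]
    have e1 : ∀ s : Form (ES d) X 2, ev2 (loc x₀ s z) u (op J x₀ z u) =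
        qd s J ((chartAt (ES d) x₀).symm z) (Y455.SY.A (d := d) (X := X) x₀ z u) := fun s =>
      H819.RN.exists_vl (d := d) (X := X) s J x₀ (hN.2 hz) u
    rw [e1] at hu ⊢
    rw [hval _ _ hu]
    refine mul_nonneg (inv_nonneg.2 ht.le) ?_
    by_cases h0 : Y455.SY.A (d := d) (X := X) x₀ z u = 0
    · rw [h0]
      unfold qd
      exact ((w _).map_coord_zero 0 rfl).ge
    · exact (hw.tames _ _ h0).le
  · intro x₀
    have h1 : {x | x ∈ F ∧ x ∉ (∅ : Set X) ∧ ¬ PositiveLimit σ J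
        (fun _ => (fun x => t⁻¹ • (w x - σ x) : Form (ES d) X 2)) x} = ∅ := by
      refine eq_empty_of_forall_notMem ?_
      rintro x ⟨-, -, h2⟩
      refine h2 fun v hv hv0 => ⟨t⁻¹ * qd w J x v, mul_pos (inv_pos.2 ht) (hw.tames x v hv), ?_⟩
      exact Eventually.of_forall fun _ => (hval x v hv0).ge
    rw [h1, empty_inter, image_empty, measure_empty]

theorem curve_good {J : End (ES d) X} (hJ : IsAlmostComplex J) (hJs : SmoothEnd J)
    {σ ζ : Form (ES d) X 2} (hζ : IsSmooth ζ) (hζc : IsClosedForm ζ) {Y : Type} {f : X → Y}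
    {y : Y} (hF : IsCurve J (f ⁻¹' {y})) (h : PositiveOnFibres f ζ J) :
    NumericallyGood σ ζ J (f ⁻¹' {y}) := by
  have hm : IsManifold (𝓡 d) ∞ X := (inferInstance : IsManifold 𝓘(ℝ, ES d) ∞ X)
  obtain ⟨S, t, c, m, k, t2, j, u, P, hj, hu, hr, h0⟩ := hF
  have hT := h S t c m k t2 j u P y hj hu fun s => hr (mem_range_self s)
  have hcl : IsClosed (range u ∪ P) :=
    (isCompact_range hu.smooth.continuous).isClosed.union hu.finite.isClosed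
  refine ⟨0, fun _ => range u ∪ P, fun _ => ζ, ⟨⟨fun p _ => hJs p, S, t, c, m, k, t2, j, u, P, hj,
    hu, rfl, hT⟩, fun _ _ => hcl, fun _ _ => Subset.rfl, fun i hi =>
    absurd hi (Nat.not_lt_zero i)⟩, fun _ => ?_, ?_, ?_⟩
  · refine (inClass_iff ζ ζ).2 ?_
    exact H819.NC.inClass_refl (d := d) (X := X) ((smooth_iff ζ).1 hζ) ((closed_iff ζ).1 hζc)
  · intro x₀ N hN
    obtain ⟨B, hB⟩ := H819.RN.lower_vl (d := d) (X := X) (cont_of hJ) ((smooth_iff ζ).1 hζ) x₀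
      hN.1 hN.2
    exact ⟨B, fun _ z hz _ u _ => hB z hz u⟩
  · have h1 : H819.HN.HN (d := d) (X := X) 2 {x | x ∈ f ⁻¹' {y} ∧ x ∉ range u} := h0
    have h2 : H819.HN.HN (d := d) (X := X) 2 {x | x ∈ f ⁻¹' {y} ∧ x ∉ range u ∪ P ∧
        ¬ PositiveLimit σ J (fun _ => ζ) x} :=
      H819.HN.HN.mono (d := d) h1 fun x hx => ⟨hx.1, fun h3 => hx.2.1 (Or.inl h3)⟩
    exact h2

theorem curve_tamed {J : End (ES d) X} {w : Form (ES d) X 2} (hw : IsTamingSymplectic w J)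
    {S : Type} [TopologicalSpace S] [ChartedSpace (ES 2) S] [IsManifold 𝓘(ℝ, ES 2) ∞ S]
    [CompactSpace S] [T2Space S] {j : End (ES 2) S} {u : S → X} {P : Set X}
    (hj : IsAlmostComplex j) (hu : IsSimple (V := ES d) (W := ES 2) J j u P) :
    TamedIn (pull u w) j := by
  have hm : IsManifold (𝓡 d) ∞ X := (inferInstance : IsManifold 𝓘(ℝ, ES d) ∞ X)
  have hm2 : IsManifold (𝓡 2) ∞ S := (inferInstance : IsManifold 𝓘(ℝ, ES 2) ∞ S)
  rw [tamed_iff]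
  exact H819.RN.curve_semi (d := d) (X := X) (S := S) (P := P) ⟨hu.smooth, hu.hol, hu.finite,
    hu.finite_preimage, hu.injective, hu.immersion⟩ hj.sq (cont_of hj)
    ((smooth_iff w).1 hw.smooth) ((closed_iff w).1 hw.closed) hw.tames

theorem curve_class {m : ℕ} {Y : Type} [TopologicalSpace Y] [ChartedSpace (ES m) Y]
    {J : End (ES d) X} {f : X → Y} (hf : ContMDiff 𝓘(ℝ, ES d) 𝓘(ℝ, ES m) ∞ f)
    {σ ζ : Form (ES d) X 2}
    (hσ0 : ∀ (x : X) (v : TangentSpace 𝓘(ℝ, ES d) x),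
      mfderiv 𝓘(ℝ, ES d) 𝓘(ℝ, ES m) f x v = 0 →
        ∀ w : TangentSpace 𝓘(ℝ, ES d) x, σ x ![v, w] = 0)
    {t : ℝ} (ht : 0 < t) (h : TamedIn (comb σ t ζ) J) : PositiveOnFibres f ζ J := by
  intro S _ _ _ _ _ j u P y hj hu hy
  have hm : IsManifold (𝓡 d) ∞ X := (inferInstance : IsManifold 𝓘(ℝ, ES d) ∞ X)
  have hm2 : IsManifold (𝓡 2) ∞ S := (inferInstance : IsManifold 𝓘(ℝ, ES 2) ∞ S)
  obtain ⟨w, hw, β, hβ, hD⟩ := h
  rw [tamed_iff]
  refine H819.RN.curve_class (d := d) (X := X) (S := S) (P := P) (J := J) (w := w) (σ := σ)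
    (β := β) (t := t) ⟨hu.smooth, hu.hol, hu.finite, hu.finite_preimage, hu.injective,
    hu.immersion⟩ hj.sq (cont_of hj) ((smooth_iff w).1 hw.smooth) ((closed_iff w).1 hw.closed)
    hw.tames ht ((smooth_iff β).1 hβ) ((isD_iff β _).1 hD) ?_
  funext x
  ext v
  have h1 : mfderiv 𝓘(ℝ, ES d) 𝓘(ℝ, ES m) f (u x) (mfderiv 𝓘(ℝ, ES 2) 𝓘(ℝ, ES d) u x (v 0)) = 0 := by
    have h2 : f ∘ u = fun _ => y := funext hy
    have h3 := mfderiv_comp x (I := 𝓘(ℝ, ES 2)) (I' := 𝓘(ℝ, ES d)) (I'' := 𝓘(ℝ, ES m))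
      (g := f) (f := u) ((hf _).mdifferentiableAt (by simp))
      ((hu.smooth x).mdifferentiableAt (by simp))
    rw [h2, mfderiv_const] at h3
    exact (DFunLike.congr_fun h3 (v 0)).symm
  have h4 := hσ0 (u x) _ h1 (mfderiv 𝓘(ℝ, ES 2) 𝓘(ℝ, ES d) u x (v 1))
  show σ (u x) (fun i => mfderiv 𝓘(ℝ, ES 2) 𝓘(ℝ, ES d) u x (v i)) = 0
  rw [← h4]
  congr 1
  funext i
  fin_cases i <;> rfl

/-- **The relative numerical criterion.** -/
theorem result_aux {m : ℕ} {Y : Type} [TopologicalSpace Y] [ChartedSpace (ES m) Y]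
    [IsManifold 𝓘(ℝ, ES m) ∞ Y] [T2Space Y] [SigmaCompactSpace Y]
    {J : End (ES d) X} (hJ : IsAlmostComplex J) (hJL : LocHolder J 1)
    {f : X → Y} {σ : Form (ES d) X 2} (hs : Semipositive (W := ES m) f σ J) :
    (∀ ζ : Form (ES d) X 2, IsSmooth ζ → IsClosedForm ζ →
      ((TamedNear σ ζ J ↔ ∃ t : ℝ, 0 < t ∧ TamedIn (comb σ t ζ) J) ∧
      (TamedNear σ ζ J ↔ ∀ y : Y, NumericallyGood σ ζ J (f ⁻¹' {y})))) ∧
    (SmoothEnd J → VanishesOnKernel (W := ES m) f σ → (∀ y : Y, IsCurve J (f ⁻¹' {y})) →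
      (∀ ζ : Form (ES d) X 2, IsSmooth ζ → IsClosedForm ζ →
        (TamedNear σ ζ J ↔ PositiveOnFibres f ζ J)) ∧
      ((∃ w : Form (ES d) X 2, IsTamingSymplectic w J) ↔
        ∃ ζ : Form (ES d) X 2, IsSmooth ζ ∧ IsClosedForm ζ ∧ PositiveOnFibres f ζ J)) := by
  obtain ⟨hf, hσ, hσc, hpos, hker⟩ := hs
  have key : ∀ ζ : Form (ES d) X 2, IsSmooth ζ → IsClosedForm ζ →
      ((TamedNear σ ζ J ↔ ∃ t : ℝ, 0 < t ∧ TamedIn (comb σ t ζ) J) ∧
      (TamedNear σ ζ J ↔ ∀ y : Y, NumericallyGood σ ζ J (f ⁻¹' {y}))) := by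
    intro ζ hζ hζc
    have h1 : TamedNear σ ζ J → ∃ t : ℝ, 0 < t ∧ TamedIn (comb σ t ζ) J := by
      rintro ⟨t₀, ht₀, h⟩
      exact ⟨t₀, ht₀, h t₀ ht₀ le_rfl⟩
    have h2 : (∃ t : ℝ, 0 < t ∧ TamedIn (comb σ t ζ) J) →
        ∀ y : Y, NumericallyGood σ ζ J (f ⁻¹' {y}) := by
      rintro ⟨t, ht, h⟩ y
      exact good_of_tamed hσ hσc ht h _
    have h3 : (∀ y : Y, NumericallyGood σ ζ J (f ⁻¹' {y})) → TamedNear σ ζ J :=
      near_of hJ hJL hf hσ hσc hζ hζc hpos hker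
    exact ⟨⟨h1, fun h => h3 (h2 h)⟩, ⟨fun h => h2 (h1 h), h3⟩⟩
  refine ⟨key, fun hJs hσ0 hF => ?_⟩
  have key2 : ∀ ζ : Form (ES d) X 2, IsSmooth ζ → IsClosedForm ζ →
      (TamedNear σ ζ J ↔ PositiveOnFibres f ζ J) := by
    intro ζ hζ hζc
    constructor
    · rintro ⟨t₀, ht₀, h⟩
      exact curve_class hf hσ0 ht₀ (h t₀ ht₀ le_rfl)
    · intro h
      exact ((key ζ hζ hζc).2).2 fun y => curve_good hJ hJs hζ hζc (hF y) h
  refine ⟨key2, ?_, ?_⟩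
  · rintro ⟨w, hw⟩
    exact ⟨w, hw.smooth, hw.closed, fun S _ _ _ _ _ j u P y hj hu _ => curve_tamed hw hj hu⟩
  · rintro ⟨ζ, hζ, hζc, h⟩
    obtain ⟨t₀, ht₀, h1⟩ := (key2 ζ hζ hζc).2 h
    obtain ⟨w, hw, -⟩ := h1 t₀ ht₀ le_rfl
    exact ⟨w, hw⟩

end

end Pool.Agent.H819.RNP
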