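import Mathlib
import Pool.Agent.H819.RN.Br
import Pool.Agent.H819.NC.Pull

/-!
# Pseudoholomorphic maps to symplectic manifolds
-/

set_option autoImplicit false

open Set Filter Topology MeasureTheory Metric
open scoped Manifold ContDiff ENNReal NNReal

noncomputable section

namespace Pool.Agent.H819.RNP

open Pool.Agent.Y501 (SY.E)
open Pool.Agent.Y501.SYP hiding cs smooth_iff isD_iff closed_iff
open Pool.Agent.H819.LGP Pool.Agent.H819.LNP Pool.Agent.H819.HNP
open Pool.Agent.H819.EMP Pool.Agent.H819.NCP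
open Pool.Agent

section

variable {d m : ℕ} {X : Type} [TopologicalSpace X] [ChartedSpace (ES d) X]
  {Y : Type} [TopologicalSpace Y] [ChartedSpace (ES m) Y]

attribute [local instance] Pool.Agent.H819.LGP.cs

/-- the pull-back of a taming symplectic form by a pseudoholomorphic map -/
theorem semipositive_pull [IsManifold 𝓘(ℝ, ES d) ∞ X] [IsManifold 𝓘(ℝ, ES m) ∞ Y]
    {J : End (ES d) X} {K : End (ES m) Y} {f : X → Y}
    (hf : ContMDiff 𝓘(ℝ, ES d) 𝓘(ℝ, ES m) ∞ f)
    (hJ : ∀ (x : X) (v : TangentSpace 𝓘(ℝ, ES d) x),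
      der (V := ES m) (W := ES d) f x (J x v) = K (f x) (der (V := ES m) (W := ES d) f x v))
    {w : Form (ES m) Y 2} (hw : IsTamingSymplectic w K) :
    Semipositive (W := ES m) f (pull (V := ES m) (W := ES d) f w) J ∧
      VanishesOnKernel (W := ES m) f (pull (V := ES m) (W := ES d) f w) := by
  have hmX : IsManifold (𝓡 d) ∞ X := (inferInstance : IsManifold 𝓘(ℝ, ES d) ∞ X)
  have hmY : IsManifold (𝓡 m) ∞ Y := (inferInstance : IsManifold 𝓘(ℝ, ES m) ∞ Y)
  have hval : ∀ (x : X) (v u : TangentSpace 𝓘(ℝ, ES d) x),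
      pull (V := ES m) (W := ES d) f w x ![v, u] =
        w (f x) ![der (V := ES m) (W := ES d) f x v, der (V := ES m) (W := ES d) f x u] := by
    intro x v u
    have h1 : pull (V := ES m) (W := ES d) f w x ![v, u] = w (f x) (fun i =>
        der (V := ES m) (W := ES d) f x
          ((![v, u] : Fin 2 → TangentSpace 𝓘(ℝ, ES d) x) i)) := rfl
    rw [h1]
    congr 1
    funext i
    fin_cases i <;> rfl
  have hq : ∀ (x : X) (v : TangentSpace 𝓘(ℝ, ES d) x),
      qd (pull (V := ES m) (W := ES d) f w) J x v =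
        qd w K (f x) (der (V := ES m) (W := ES d) f x v) := by
    intro x v
    unfold qd
    rw [hval, hJ]
  refine ⟨⟨hf, ?_, ?_, fun x v => ?_, fun x v hv => ?_⟩, fun x v hv u => ?_⟩
  · exact (smooth_iff _).2 (H819.NC.smooth_pullF (m := d) (d := m) (S := X) (X := Y) hf
      ((smooth_iff w).1 hw.smooth))
  · refine (closed_iff _).2 ?_
    have h1 := H819.NC.isD_pullF (m := d) (d := m) (S := X) (X := Y) hf
      ((smooth_iff w).1 hw.smooth) ((closed_iff w).1 hw.closed)
    have h2 : (H819.NC.pullF (m := d) (d := m) (k := 3) (S := X) (X := Y) f 0) = 0 := by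
      funext x
      ext v
      rfl
    rw [h2] at h1
    exact h1
  · rw [hq]
    by_cases h0 : der (V := ES m) (W := ES d) f x v = 0
    · rw [h0]
      unfold qd
      exact ((w (f x)).map_coord_zero 0 rfl).ge
    · exact (hw.tames _ _ h0).le
  · by_contra h0
    have h1 := hw.tames (f x) _ h0
    rw [← hq, hv] at h1
    exact lt_irrefl 0 h1
  · rw [hval, hv]
    exact (w (f x)).map_coord_zero 0 rfl

/-- **Pseudoholomorphic maps to symplectic manifolds whose fibres are curves.** -/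
theorem result_sympl [IsManifold 𝓘(ℝ, ES d) ∞ X] [CompactSpace X] [T2Space X]
    [IsManifold 𝓘(ℝ, ES m) ∞ Y] [T2Space Y] [SigmaCompactSpace Y]
    {J : End (ES d) X} (hJ : IsAlmostComplex J) (hJL : LocHolder J 1) {f : X → Y}
    (hf : ContMDiff 𝓘(ℝ, ES d) 𝓘(ℝ, ES m) ∞ f) (hJs : SmoothEnd J)
    (hF : ∀ y : Y, IsCurve J (f ⁻¹' {y})) {K : End (ES m) Y} {w : Form (ES m) Y 2}
    (hw : IsTamingSymplectic w K)
    (hol : ∀ (x : X) (v : TangentSpace 𝓘(ℝ, ES d) x),
      der (V := ES m) (W := ES d) f x (J x v) = K (f x) (der (V := ES m) (W := ES d) f x v)) :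
    (∀ ζ : Form (ES d) X 2, IsSmooth ζ → IsClosedForm ζ →
      (TamedNear (pull (V := ES m) (W := ES d) f w) ζ J ↔ PositiveOnFibres f ζ J)) ∧
    ((∃ τ : Form (ES d) X 2, IsTamingSymplectic τ J) ↔
      ∃ ζ : Form (ES d) X 2, IsSmooth ζ ∧ IsClosedForm ζ ∧ PositiveOnFibres f ζ J) := by
  obtain ⟨h3, h4⟩ := semipositive_pull hf hol hw
  exact (result_aux hJ hJL h3).2 hJs h4 hF

end

end Pool.Agent.H819.RNP
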