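import Mathlib
import Pool.Agent.H819.RN.Pub

/-!
# The two criteria
-/

set_option autoImplicit false

open Set Filter Topology MeasureTheory Metric
open scoped Manifold ContDiff ENNReal NNReal

noncomputable section

namespace Pool.Agent.H819.RNP

open Pool.Agent.Y501.SYP Pool.Agent.H819.LGP Pool.Agent.H819.LNP Pool.Agent.H819.HNP
open Pool.Agent.H819.EMP Pool.Agent.H819.NCP

variable {V : Type} [NormedAddCommGroup V] [NormedSpace ℝ V]
  {X : Type} [TopologicalSpace X] [ChartedSpace V X] {Y : Type}

/-- The relative Nakai–Moishezon criterion: for each smooth closed two-form `ζ`, the class of `σ + t ζ`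
contains a symplectic form taming `J` for all small `t > 0` if and only if `ζ` is positive on each closed
`J`-holomorphic curve contained in a fibre of `f`; and `X` has a symplectic form taming `J` if and only if
there is a class with this property. -/
def Nakai (f : X → Y) (σ : Form V X 2) (J : End V X) : Prop :=
  (∀ ζ : Form V X 2, IsSmooth ζ → IsClosedForm ζ →
    (TamedNear σ ζ J ↔ PositiveOnFibres f ζ J)) ∧
  ((∃ τ : Form V X 2, IsTamingSymplectic τ J) ↔
    ∃ ζ : Form V X 2, IsSmooth ζ ∧ IsClosedForm ζ ∧ PositiveOnFibres f ζ J)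

/-- For each smooth closed two-form `ζ`, the class of `σ + t ζ` contains a symplectic form taming `J` for
all small `t > 0` if and only if it does for one `t > 0`, and if and only if each fibre of `f` is
numerically good. -/
def Fibrewise [MeasurableSpace V] [BorelSpace V] (f : X → Y) (σ : Form V X 2) (J : End V X) :
    Prop :=
  ∀ ζ : Form V X 2, IsSmooth ζ → IsClosedForm ζ →
    ((TamedNear σ ζ J ↔ ∃ t : ℝ, 0 < t ∧ TamedIn (comb σ t ζ) J) ∧
    (TamedNear σ ζ J ↔ ∀ y : Y, NumericallyGood σ ζ J (f ⁻¹' {y})))

/-- `f` is a pseudoholomorphic map from `(X, J)` to `(Y, K)`. -/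
def IsHol {W : Type} [NormedAddCommGroup W] [NormedSpace ℝ W] [TopologicalSpace Y]
    [ChartedSpace W Y] (f : X → Y) (J : End V X) (K : End W Y) : Prop :=
  ∀ (x : X) (v : TangentSpace 𝓘(ℝ, V) x),
    der (V := W) (W := V) f x (J x v) = K (f x) (der (V := W) (W := V) f x v)

end Pool.Agent.H819.RNP
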